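import Mathlib
import Pool.Agent.SB.Defs
import Pool.Agent.SB.Vol
import Pool.Agent.SB.Mom
import Pool.Agent.SB.Radial
import Pool.Agent.SB.AffBall

set_option autoImplicit false

/-! The central moment tensors determine the body. -/

namespace Pool.Agent.BNH

open MeasureTheory Set Metric
open scoped ENNReal
open Pool.Agent.H87Star (IsGauge)
open Pool.Agent.SB

/-- If the one-dimensional moments are invariant under `v ↦ a v` then the measure is invariant
under the map `R` adjoint to `a`. -/
theorem map_eq_of_moments_adj {k : ℕ} (μ : Measure (E k)) [IsProbabilityMeasure μ] (C : ℝ)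
    (hC : ∀ᵐ x ∂μ, ‖x‖ ≤ C) (R a : E k →L[ℝ] E k) (hRa : ∀ x v, inner ℝ (R x) v = inner ℝ x (a v))
    (h : ∀ (m : ℕ) (v : E k), ∫ x, inner ℝ x (a v) ^ m ∂μ = ∫ x, inner ℝ x v ^ m ∂μ) :
    μ.map R = μ := by
  have hRm : Measurable (R : E k → E k) := R.continuous.measurable
  have : IsProbabilityMeasure (μ.map R) := Measure.isProbabilityMeasure_map hRm.aemeasurable
  apply Measure.ext_of_charFun
  funext v
  have h1 : charFun (μ.map R) v = charFun μ (a v) := by
    rw [charFun_apply, charFun_apply, integral_map hRm.aemeasurable]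
    · congr 1
      funext x
      rw [hRa]
    · apply Continuous.aestronglyMeasurable
      fun_prop
  rw [h1]
  have h2 := charFun_hasSum μ C hC (a v)
  have h3 := charFun_hasSum μ C hC v
  simp only [h] at h2
  exact h2.unique h3

/-- Invariance of the normalised volume of a translate of a star body gives invariance of the set. -/
theorem set_invariant {k : ℕ} {h : E k → ℝ} (hh : IsGauge h) (z : E k) (R : E k → E k)
    (hR : Continuous R) (hinv : (nv {x | h (x - z) ≤ 1}).map R = nv {x | h (x - z) ≤ 1})
    {x : E k} (hx : h (x - z) ≤ 1) : h (R x - z) ≤ 1 := by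
  by_contra hRx
  push Not at hRx
  set A : Set (E k) := {x | h (x - z) ≤ 1} with hA
  have hcont : Continuous fun y : E k => h (y - z) := hh.cont.comp (continuous_id.sub continuous_const)
  have hAclosed : IsClosed A := isClosed_le hcont continuous_const
  have hAcomp : IsCompact A := by
    have h1 : A = (fun y => y + z) '' body h := by
      ext y
      constructor
      · intro hy
        exact ⟨y - z, hy, sub_add_cancel y z⟩
      · rintro ⟨w, hw, rfl⟩
        show h (w + z - z) ≤ 1
        rw [add_sub_cancel_right]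
        exact hw
    rw [h1]
    exact (isCompact_body hh).image (continuous_id.add continuous_const)
  have hAfin : volume A < ⊤ := hAcomp.measure_lt_top
  have hV : IsOpen Aᶜ := hAclosed.isOpen_compl
  have hRV : IsOpen (R ⁻¹' Aᶜ) := hV.preimage hR
  have hU : IsOpen {y : E k | h (y - z) < 1} := isOpen_lt hcont continuous_const
  have hne : (R ⁻¹' Aᶜ ∩ {y : E k | h (y - z) < 1}).Nonempty := by
    have hlim : Filter.Tendsto (fun t : ℝ => z + t • (x - z)) (nhdsWithin 1 (Iio 1)) (nhds x) := by
      have h1 : Filter.Tendsto (fun t : ℝ => z + t • (x - z)) (nhds 1)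
          (nhds (z + (1 : ℝ) • (x - z))) := by
        apply Continuous.tendsto
        fun_prop
      rw [one_smul, add_sub_cancel] at h1
      exact h1.mono_left nhdsWithin_le_nhds
    have hmem : R ⁻¹' Aᶜ ∈ nhds x := hRV.mem_nhds (by
      show ¬ (h (R x - z) ≤ 1)
      exact not_le.2 hRx)
    have h2 : ∀ᶠ t : ℝ in nhdsWithin 1 (Iio 1), z + t • (x - z) ∈ R ⁻¹' Aᶜ := hlim hmem
    have h3 : ∀ᶠ t : ℝ in nhdsWithin 1 (Iio 1), t ∈ Ioo (0 : ℝ) 1 := by
      exact Ioo_mem_nhdsLT (by norm_num)
    obtain ⟨t, ht1, ht2⟩ := (h2.and h3).exists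
    refine ⟨z + t • (x - z), ht1, ?_⟩
    show h (z + t • (x - z) - z) < 1
    rw [add_sub_cancel_left, hh.hom t ht2.1.le]
    have h4 := hh.nonneg (x - z)
    have h5 : h (x - z) ≤ 1 := hx
    nlinarith [ht2.1, ht2.2]
  have hpos : 0 < volume (R ⁻¹' Aᶜ ∩ {y : E k | h (y - z) < 1}) :=
    (hRV.inter hU).measure_pos volume hne
  have e1 : nv A (R ⁻¹' Aᶜ) = 0 := by
    have h1 : (nv A).map R Aᶜ = nv A (R ⁻¹' Aᶜ) :=
      Measure.map_apply hR.measurable hV.measurableSet
    rw [← h1, hinv]
    unfold nv
    rw [Measure.smul_apply, Measure.restrict_apply hV.measurableSet, compl_inter_self,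
      measure_empty, smul_zero]
  have e2 : nv A (R ⁻¹' Aᶜ) = (volume A)⁻¹ * volume (R ⁻¹' Aᶜ ∩ A) := by
    unfold nv
    rw [Measure.smul_apply, Measure.restrict_apply hRV.measurableSet, smul_eq_mul]
  rw [e2, mul_eq_zero] at e1
  rcases e1 with e1 | e1
  · rw [ENNReal.inv_eq_zero] at e1
    exact hAfin.ne e1
  · have h0 : {y : E k | h (y - z) < 1} ⊆ A := by
      intro y hy
      exact (le_of_lt hy : h (y - z) ≤ 1)
    have h1 : volume (R ⁻¹' Aᶜ ∩ {y : E k | h (y - z) < 1}) ≤ volume (R ⁻¹' Aᶜ ∩ A) :=
      measure_mono (inter_subset_inter_right _ h0)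
    rw [e1] at h1
    exact absurd hpos (not_lt.2 h1)

/-- A linear map whose transpose fixes all central moment tensors maps the centred body into itself. -/
theorem body_invariant {k : ℕ} {h : E k → ℝ} (hh : IsGauge h) (R a : E k →L[ℝ] E k)
    (hRa : ∀ x v, inner ℝ (R x) v = inner ℝ x (a v))
    (ha : ∀ m, (mom m (body h)).compContinuousLinearMap (fun _ => a) = mom m (body h))
    (x : E k) (hx : h (x + cen (body h)) ≤ 1) : h (R x + cen (body h)) ≤ 1 := by
  set c := cen (body h) with hc
  have hbm : MeasurableSet (body h) := (isCompact_body hh).measurableSet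
  have hprob := isProbabilityMeasure_nv hh
  have hshift := nv_shift hbm c
  have hset : {x | x + c ∈ body h} = {x | h (x - (-c)) ≤ 1} := by
    ext x
    simp [body]
  have hfm : Measurable fun x : E k => x - c := measurable_id.sub_const c
  have hprob2 : IsProbabilityMeasure (nv {x | x + c ∈ body h}) := by
    rw [← hshift]
    exact Measure.isProbabilityMeasure_map hfm.aemeasurable
  obtain ⟨C, hC⟩ := (isCompact_body hh).isBounded.exists_norm_le
  have hbd : ∀ᵐ x ∂(nv {x | x + c ∈ body h}), ‖x‖ ≤ C + ‖c‖ := by
    filter_upwards [ae_nv ((measurable_id.add_const c) hbm)] with x hx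
    have h1 := hC _ hx
    calc ‖x‖ = ‖(x + c) - c‖ := by rw [add_sub_cancel_right]
      _ ≤ ‖x + c‖ + ‖c‖ := norm_sub_le _ _
      _ ≤ C + ‖c‖ := by
        have : ‖x + c‖ ≤ C := h1
        linarith
  have hmo : ∀ (m : ℕ) (v : E k), ∫ x, inner ℝ x v ^ m ∂(nv {x | x + c ∈ body h}) =
      mom m (body h) (fun _ => v) := by
    intro m v
    rw [← hshift, integral_map hfm.aemeasurable, mom_apply m hh]
    · simp [hc]
    · apply Continuous.aestronglyMeasurable
      fun_prop
  have hinv := map_eq_of_moments_adj (nv {x | x + c ∈ body h}) _ hbd R a hRa (by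
    intro m v
    rw [hmo, hmo]
    conv_rhs => rw [← ha m]
    rfl)
  rw [hset] at hinv
  have h1 := set_invariant hh (-c) R R.continuous hinv (x := x) (by simpa using hx)
  simpa using h1

/-- The moment tensors of the sections determine the equivalences: if `P` pulls all moment tensors of
`body h` back to those of `body h'`, and the two bodies are affinely equivalent, then the inverse
transpose of `P` maps the centred body `h'` onto the centred body `h`. -/
theorem body_of_moments {k : ℕ} {h h' : E k → ℝ} (hh : IsGauge h) (hh' : IsGauge h')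
    (g : E k ≃L[ℝ] E k) (c : E k) (hg : ∀ v, h' (g v + c) ≤ 1 ↔ h v ≤ 1)
    (P : (E k →L[ℝ] E k)ˣ)
    (hP : ∀ m, (mom m (body h)).compContinuousLinearMap (fun _ => (P : E k →L[ℝ] E k)) =
      mom m (body h')) (x : E k) :
    h' (ContinuousLinearMap.adjoint (P : E k →L[ℝ] E k) x + cen (body h')) ≤ 1 ↔
      h (x + cen (body h)) ≤ 1 := by
  -- the genuine equivalence, centred
  have hcen := cen_affine hh hh' g c hg
  have hgc : ∀ x, h' (g x + cen (body h')) ≤ 1 ↔ h (x + cen (body h)) ≤ 1 := by
    intro x
    rw [← hg (x + cen (body h)), hcen, map_add, add_assoc]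
  have hmom : ∀ m, mom m (body h') = (mom m (body h)).compContinuousLinearMap
      (fun _ => ContinuousLinearMap.adjoint (g : E k →L[ℝ] E k)) := fun m =>
    mom_affine m hh hh' g c hg
  set G : E k →L[ℝ] E k := (g : E k →L[ℝ] E k) with hG
  set G' : E k →L[ℝ] E k := (g.symm : E k →L[ℝ] E k) with hG'
  have hGG' : G.comp G' = ContinuousLinearMap.id ℝ (E k) := by
    ext1 v
    exact g.apply_symm_apply v
  have hG'G : G'.comp G = ContinuousLinearMap.id ℝ (E k) := by
    ext1 v
    exact g.symm_apply_apply v
  -- inverse of `P`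
  set Q : E k →L[ℝ] E k := ((P⁻¹ : (E k →L[ℝ] E k)ˣ) : E k →L[ℝ] E k) with hQ
  have hPQ : (P : E k →L[ℝ] E k).comp Q = ContinuousLinearMap.id ℝ (E k) := P.mul_inv
  have hQP : Q.comp (P : E k →L[ℝ] E k) = ContinuousLinearMap.id ℝ (E k) := P.inv_mul
  set P' : E k →L[ℝ] E k := (P : E k →L[ℝ] E k) with hP'
  have hGQ : ∀ m, (mom m (body h)).compContinuousLinearMap (fun _ => (ContinuousLinearMap.adjoint G).comp Q) =
      mom m (body h) := by
    intro m
    have h1 : (mom m (body h)).compContinuousLinearMap
        (fun _ => (ContinuousLinearMap.adjoint G).comp Q) =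
        ((mom m (body h)).compContinuousLinearMap
          (fun _ => ContinuousLinearMap.adjoint G)).compContinuousLinearMap (fun _ => Q) := rfl
    rw [h1, ← hmom m, ← hP m]
    have h2 : ((mom m (body h)).compContinuousLinearMap (fun _ => P')).compContinuousLinearMap
        (fun _ => Q) = (mom m (body h)).compContinuousLinearMap (fun _ => P'.comp Q) := rfl
    rw [h2, hPQ]
    rfl
  have hQG : ∀ m, (mom m (body h)).compContinuousLinearMap
      (fun _ => P'.comp (ContinuousLinearMap.adjoint G')) = mom m (body h) := by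
    intro m
    have h1 : (mom m (body h)).compContinuousLinearMap
        (fun _ => P'.comp (ContinuousLinearMap.adjoint G')) =
        ((mom m (body h)).compContinuousLinearMap
          (fun _ => P')).compContinuousLinearMap (fun _ => ContinuousLinearMap.adjoint G') := rfl
    rw [h1, hP m, hmom m]
    have h2 : ((mom m (body h)).compContinuousLinearMap
        (fun _ => ContinuousLinearMap.adjoint G)).compContinuousLinearMap
        (fun _ => ContinuousLinearMap.adjoint G') = (mom m (body h)).compContinuousLinearMap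
        (fun _ => (ContinuousLinearMap.adjoint G).comp (ContinuousLinearMap.adjoint G')) := rfl
    rw [h2, ← ContinuousLinearMap.adjoint_comp, hG'G]
    have h3 : ContinuousLinearMap.adjoint (ContinuousLinearMap.id ℝ (E k)) =
        ContinuousLinearMap.id ℝ (E k) := ContinuousLinearMap.adjoint_id
    rw [h3]
    rfl
  have key1 : ∀ x, h (x + cen (body h)) ≤ 1 →
      h ((ContinuousLinearMap.adjoint Q) (G x) + cen (body h)) ≤ 1 := by
    intro x hx
    refine body_invariant hh ((ContinuousLinearMap.adjoint Q).comp G)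
      ((ContinuousLinearMap.adjoint G).comp Q) ?_ hGQ x hx
    intro x v
    rw [ContinuousLinearMap.comp_apply, ContinuousLinearMap.comp_apply,
      ContinuousLinearMap.adjoint_inner_left, ContinuousLinearMap.adjoint_inner_right]
  have key2 : ∀ x, h (x + cen (body h)) ≤ 1 →
      h (G' ((ContinuousLinearMap.adjoint P') x) + cen (body h)) ≤ 1 := by
    intro x hx
    refine body_invariant hh (G'.comp (ContinuousLinearMap.adjoint P'))
      (P'.comp (ContinuousLinearMap.adjoint G')) ?_ hQG x hx
    intro x v
    rw [ContinuousLinearMap.comp_apply, ContinuousLinearMap.comp_apply]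
    rw [← ContinuousLinearMap.adjoint_inner_left, ContinuousLinearMap.adjoint_inner_right]
  have hadj : ∀ x, (ContinuousLinearMap.adjoint Q) ((ContinuousLinearMap.adjoint P') x) = x := by
    intro x
    have h1 := congrArg ContinuousLinearMap.adjoint hPQ
    rw [ContinuousLinearMap.adjoint_comp] at h1
    have h2 : ContinuousLinearMap.adjoint (ContinuousLinearMap.id ℝ (E k)) =
        ContinuousLinearMap.id ℝ (E k) := ContinuousLinearMap.adjoint_id
    rw [h2] at h1
    exact DFunLike.congr_fun h1 x
  constructor
  · intro hx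
    -- write adjoint P x = g y
    have h1 : h (G' ((ContinuousLinearMap.adjoint P') x) + cen (body h)) ≤ 1 := by
      rw [← hgc]
      have h2 : g (G' ((ContinuousLinearMap.adjoint P') x)) = (ContinuousLinearMap.adjoint P') x :=
        g.apply_symm_apply _
      rw [h2]
      exact hx
    have h3 := key1 _ h1
    have h4 : G (G' ((ContinuousLinearMap.adjoint P') x)) = (ContinuousLinearMap.adjoint P') x :=
      g.apply_symm_apply _
    rw [h4, hadj] at h3
    exact h3
  · intro hx
    have h1 := key2 x hx
    rw [← hgc] at h1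
    have h2 : g (G' ((ContinuousLinearMap.adjoint P') x)) = (ContinuousLinearMap.adjoint P') x :=
      g.apply_symm_apply _
    rw [h2] at h1
    exact h1

end Pool.Agent.BNH
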