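import Mathlib
import Pool.Agent.SB.Defs

set_option autoImplicit false

/-! Finitely many forms have the stabiliser of all of them (Hilbert's basis theorem). -/

namespace Pool.Agent.BNH

open Pool.Agent.SB (E CM)

section Noe

variable {k : ℕ}

/-- standard basis vector -/
noncomputable def eb (i : Fin k) : E k := EuclideanSpace.single i 1

theorem eb_sum (v : E k) : v = ∑ i, v i • eb i := by
  have h := (EuclideanSpace.basisFun (Fin k) ℝ).sum_repr v
  simp only [EuclideanSpace.basisFun_repr, EuclideanSpace.basisFun_apply] at h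
  exact h.symm

/-- The polynomial `x (a e_{j_1}, …, a e_{j_m}) - x (e_{j_1}, …, e_{j_m})` in the entries of `a`. -/
noncomputable def pol {m : ℕ} (x : CM k m) (j : Fin m → Fin k) :
    MvPolynomial (Fin k × Fin k) ℝ :=
  (∑ i : Fin m → Fin k, MvPolynomial.C (x (fun l => eb (i l))) *
    ∏ l, MvPolynomial.X (i l, j l)) - MvPolynomial.C (x (fun l => eb (j l)))

/-- the entries of a linear map -/
noncomputable def ent (a : E k →L[ℝ] E k) : Fin k × Fin k → ℝ := fun p => (a (eb p.2)) p.1

theorem eval_pol {m : ℕ} (x : CM k m) (j : Fin m → Fin k) (a : E k →L[ℝ] E k) :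
    MvPolynomial.eval (ent a) (pol x j) =
      x (fun l => a (eb (j l))) - x (fun l => eb (j l)) := by
  unfold pol
  rw [map_sub, MvPolynomial.eval_C, map_sum]
  congr 1
  have h1 : (fun l => a (eb (j l))) = fun l => ∑ i, (a (eb (j l))) i • (eb i : E k) := by
    funext l
    exact eb_sum _
  rw [h1, ContinuousMultilinearMap.map_sum]
  refine Finset.sum_congr rfl fun i _ => ?_
  rw [map_mul, MvPolynomial.eval_C, map_prod]
  simp only [MvPolynomial.eval_X]
  have h2 := x.map_smul_univ (fun l => (a (eb (j l))) (i l)) (fun l => (eb (i l) : E k))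
  rw [h2, smul_eq_mul, mul_comm]
  rfl

theorem ext_eb {m : ℕ} (x y : CM k m)
    (h : ∀ j : Fin m → Fin k, x (fun l => eb (j l)) = y (fun l => eb (j l))) : x = y := by
  apply ContinuousMultilinearMap.toMultilinearMap_injective
  refine Module.Basis.ext_multilinear
    (fun _ : Fin m => (EuclideanSpace.basisFun (Fin k) ℝ).toBasis) ?_
  intro v
  have := h v
  simpa [eb] using this

theorem stab_iff {m : ℕ} (x : CM k m) (a : E k →L[ℝ] E k) :
    x.compContinuousLinearMap (fun _ => a) = x ↔
      ∀ j : Fin m → Fin k, MvPolynomial.eval (ent a) (pol x j) = 0 := by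
  constructor
  · intro h j
    rw [eval_pol, sub_eq_zero]
    conv_rhs => rw [← h]
    rfl
  · intro h
    refine ext_eb _ _ fun j => ?_
    have := h j
    rw [eval_pol, sub_eq_zero] at this
    exact this

/-- Finitely many forms have the stabiliser of all of them. -/
theorem exists_finite_stab (x : ∀ m : ℕ, CM k m) :
    ∃ M : ℕ, ∀ a : E k →L[ℝ] E k,
      (∀ m, m < M → (x m).compContinuousLinearMap (fun _ => a) = x m) →
      ∀ m, (x m).compContinuousLinearMap (fun _ => a) = x m := by
  let I : ℕ →o Ideal (MvPolynomial (Fin k × Fin k) ℝ) :=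
    { toFun := fun M => Ideal.span {q | ∃ m, m < M ∧ ∃ j : Fin m → Fin k, q = pol (x m) j}
      monotone' := by
        intro M M' hM
        refine Ideal.span_mono ?_
        rintro q ⟨m, hm, j, rfl⟩
        exact ⟨m, lt_of_lt_of_le hm hM, j, rfl⟩ }
  obtain ⟨M, hM⟩ := monotone_stabilizes_iff_noetherian.2
    (inferInstance : IsNoetherian (MvPolynomial (Fin k × Fin k) ℝ)
      (MvPolynomial (Fin k × Fin k) ℝ)) I
  refine ⟨M, fun a ha m => ?_⟩
  rw [stab_iff]
  intro j
  have h1 : pol (x m) j ∈ I (max M (m + 1)) :=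
    Ideal.subset_span ⟨m, lt_of_lt_of_le (Nat.lt_succ_self m) (le_max_right _ _), j, rfl⟩
  rw [← hM _ (le_max_left M (m + 1))] at h1
  have h2 : I M ≤ RingHom.ker (MvPolynomial.eval (ent a)) := by
    refine Ideal.span_le.2 ?_
    rintro q ⟨m', hm', j', rfl⟩
    exact (stab_iff (x m') a).1 (ha m' hm') j'
  exact h2 h1

end Noe

end Pool.Agent.BNH
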