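import Mathlib
import Pool.Agent.SB.Rep

set_option autoImplicit false

/-! The action of linear maps on finite families of forms. -/

namespace Pool.Agent.BNH

open Pool.Agent.SB
open scoped ContDiff

/-- Families of forms. -/
abbrev VM (k M : ℕ) := (m : Fin M) → CM k (m : ℕ)

/-- The right action on families of forms. -/
noncomputable def actV {k : ℕ} (M : ℕ) (P : E k →L[ℝ] E k) : VM k M →L[ℝ] VM k M :=
  ContinuousLinearMap.pi fun m =>
    (ContinuousMultilinearMap.compContinuousLinearMapL (fun _ : Fin (m : ℕ) => P) :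
      CM k (m : ℕ) →L[ℝ] CM k (m : ℕ)).comp (ContinuousLinearMap.proj m)

theorem actV_apply {k : ℕ} (M : ℕ) (P : E k →L[ℝ] E k) (T : VM k M) (m : Fin M) :
    actV M P T m = (T m).compContinuousLinearMap (fun _ => P) := rfl

theorem actV_one {k : ℕ} (M : ℕ) : actV (k := k) M 1 = ContinuousLinearMap.id ℝ (VM k M) := by
  refine ContinuousLinearMap.ext fun T => ?_
  funext m
  rw [actV_apply]
  rfl

theorem actV_mul {k : ℕ} (M : ℕ) (P P' : E k →L[ℝ] E k) :
    actV M (P * P') = (actV M P').comp (actV M P) := by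
  refine ContinuousLinearMap.ext fun T => ?_
  funext m
  rfl

theorem actV_contDiff {k : ℕ} (M : ℕ) : ContDiff ℝ 1 (actV (k := k) M) := by
  have h : ∀ j : ℕ, ContDiff ℝ 1 (fun P : E k →L[ℝ] E k =>
      (ContinuousMultilinearMap.compContinuousLinearMapL (fun _ : Fin j => P) :
        CM k j →L[ℝ] CM k j)) := by
    intro j
    have h1 : ContDiff ℝ 1 (fun f : Fin j → (E k →L[ℝ] E k) =>
        (ContinuousMultilinearMap.compContinuousLinearMapL f : CM k j →L[ℝ] CM k j)) :=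
      ContinuousMultilinearMap.contDiff (𝕜 := ℝ) (E := fun _ : Fin j => E k →L[ℝ] E k)
        (F := CM k j →L[ℝ] CM k j)
        (ContinuousMultilinearMap.compContinuousLinearMapContinuousMultilinear ℝ
          (fun _ : Fin j => E k) (fun _ : Fin j => E k) ℝ)
    have h2 : ContDiff ℝ 1 (fun P : E k →L[ℝ] E k => (fun _ : Fin j => P)) :=
      contDiff_pi.2 fun _ => contDiff_id
    exact h1.comp h2
  have h3 : (actV (k := k) M) = fun P : E k →L[ℝ] E k => ∑ m : Fin M,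
      (ContinuousLinearMap.single ℝ (fun m : Fin M => CM k (m : ℕ)) m).comp
        ((ContinuousMultilinearMap.compContinuousLinearMapL (fun _ : Fin (m : ℕ) => P) :
          CM k (m : ℕ) →L[ℝ] CM k (m : ℕ)).comp (ContinuousLinearMap.proj m)) := by
    funext P
    refine ContinuousLinearMap.ext fun T => ?_
    funext m
    rw [ContinuousLinearMap.sum_apply, Finset.sum_apply, Finset.sum_eq_single m]
    · simp [actV]
    · intro b _ hb
      simp [Pi.single_eq_of_ne hb.symm]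
    · intro h
      exact absurd (Finset.mem_univ m) h
  rw [h3]
  refine ContDiff.sum fun m _ => ?_
  exact contDiff_const.clm_comp ((h m).clm_comp contDiff_const)

/-- If `q ∘ a = x` and `q` is positive definite then `a` is bounded. -/
theorem actV_bound {k : ℕ} {M : ℕ} (hM : 2 < M) {c : ℝ} (hc : 0 < c) (x q : VM k M)
    (hq : ∀ v, c * ‖v‖ ^ 2 ≤ q ⟨2, hM⟩ (fun _ => v)) (a : E k →L[ℝ] E k) (ha : actV M a q = x) :
    ‖a‖ ≤ Real.sqrt (‖x ⟨2, hM⟩‖ / c) := by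
  have h1 : act 2 a ((q ⟨2, hM⟩ : CM k 2), (q ⟨2, hM⟩ : CM k 2)) =
      ((x ⟨2, hM⟩ : CM k 2), (x ⟨2, hM⟩ : CM k 2)) := by
    have h2 := congrFun ha ⟨2, hM⟩
    rw [actV_apply] at h2
    rw [act_apply]
    exact Prod.ext h2 h2
  exact act_bound 2 hc _ _ hq a h1

/-- The orbit map is proper at a positive definite form. -/
theorem actV_proper {k : ℕ} {M : ℕ} (hM : 2 < M) {c : ℝ} (hc : 0 < c) (x : VM k M)
    (hx : ∀ v, c * ‖v‖ ^ 2 ≤ x ⟨2, hM⟩ (fun _ => v)) :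
    ∃ r > 0, ∃ B : ℝ, ∀ a : (E k →L[ℝ] E k)ˣ, ‖actV M (a : E k →L[ℝ] E k) x - x‖ ≤ r →
      ‖(a : E k →L[ℝ] E k)‖ ≤ B ∧ ‖((a⁻¹ : (E k →L[ℝ] E k)ˣ) : E k →L[ℝ] E k)‖ ≤ B := by
  obtain ⟨r, hr, B, h⟩ := act_proper 2 hc ((x ⟨2, hM⟩ : CM k 2), (x ⟨2, hM⟩ : CM k 2)) hx
  refine ⟨r, hr, B, fun a ha => h a ?_⟩
  refine le_trans ?_ ha
  have h2 : act 2 (a : E k →L[ℝ] E k) ((x ⟨2, hM⟩ : CM k 2), (x ⟨2, hM⟩ : CM k 2)) -
      ((x ⟨2, hM⟩ : CM k 2), (x ⟨2, hM⟩ : CM k 2)) =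
      ((actV M (a : E k →L[ℝ] E k) x - x) ⟨2, hM⟩, (actV M (a : E k →L[ℝ] E k) x - x) ⟨2, hM⟩) :=
    rfl
  rw [h2, Prod.norm_mk, max_self]
  exact norm_le_pi_norm (actV M (a : E k →L[ℝ] E k) x - x) ⟨2, hM⟩

end Pool.Agent.BNH
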