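import Mathlib
import Pool.Agent.SB.Defs
import Pool.Agent.SB.Vol
import Pool.Agent.SB.Mom
import Pool.Agent.SB.Cont
import Pool.Agent.SB.LocSec
import Pool.Agent.SB.Lift
import Pool.Agent.BNH.LNoe
import Pool.Agent.BNH.LRep
import Pool.Agent.BNH.LDet

set_option autoImplicit false

/-! The full continuous lift: continuous affine parametrisations of the central sections by one
fixed section. -/

namespace Pool.Agent.BNH

open MeasureTheory Set Metric Filter Topology
open scoped ENNReal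
open Pool.Agent.H87Star (IsGauge)
open Pool.Agent.SB

section
variable {n k : ℕ} {f : E n → ℝ}

/-- sequential continuity of the centroid -/
theorem cen_tendsto (hk : 1 ≤ k) (hf : IsGauge f)
    (F : ℕ → E k →L[ℝ] E n) (F₀ : E k →L[ℝ] E n) (hF : ∀ j, Iso (F j)) (hF₀ : Iso F₀)
    (hlim : Tendsto F atTop (𝓝 F₀)) :
    Tendsto (fun j => cen (sec f (F j))) atTop (𝓝 (cen (sec f F₀))) := by
  have hV : Tendsto (fun j => (volume (sec f (F j))).toReal) atTop
      (𝓝 (volume (sec f F₀)).toReal) := by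
    have h1 := integral_sec_tendsto hk hf F F₀ hF hF₀ hlim (fun _ _ => (1 : ℝ)) (fun _ => (1 : ℝ))
      (fun _ => continuous_const) continuous_const (fun _ => ⟨1, fun j x _ => by simp⟩)
      (fun _ => tendsto_const_nhds)
    simpa [Measure.real] using h1
  have hVpos : (volume (sec f F₀)).toReal ≠ 0 := by
    have h1 := volume_body_pos (gauge_comp hf hF₀)
    have h2 := volume_body_lt_top (gauge_comp hf hF₀)
    exact (ENNReal.toReal_pos h1.ne' h2.ne).ne'
  have hVi := hV.inv₀ hVpos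
  unfold cen
  simp_rw [integral_nv]
  refine hVi.smul ?_
  exact integral_sec_tendsto hk hf F F₀ hF hF₀ hlim (fun _ x => x) (fun x => x)
    (fun _ => continuous_id) continuous_id (fun C => ⟨C, fun j x hx => hx⟩)
    (fun _ => tendsto_const_nhds)

/-- The centroid depends continuously on the frame. -/
theorem cen_continuousOn (hk : 1 ≤ k) (hf : IsGauge f) :
    ContinuousOn (fun F : E k →L[ℝ] E n => cen (sec f F)) {F | Iso F} := by
  classical
  intro F₀ hF₀
  have hF₀' : Iso F₀ := hF₀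
  refine tendsto_of_seq_tendsto fun u hu => ?_
  have h1 : ∀ᶠ j in atTop, Iso (u j) := by
    have := hu.eventually (self_mem_nhdsWithin)
    exact this
  have h2 : Tendsto u atTop (𝓝 F₀) := tendsto_nhds_of_tendsto_nhdsWithin hu
  set v : ℕ → E k →L[ℝ] E n := fun j => if Iso (u j) then u j else F₀ with hv
  have hvI : ∀ j, Iso (v j) := by
    intro j
    simp only [hv]
    split_ifs with h
    · exact h
    · exact hF₀'
  have huv : u =ᶠ[atTop] v := by
    filter_upwards [h1] with j hj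
    simp only [hv, if_pos hj]
  have h3 := cen_tendsto hk hf v F₀ hvI hF₀' (h2.congr' huv)
  refine h3.congr' ?_
  filter_upwards [huv] with j hj
  simp only [Function.comp_apply, hj]

/-- One unit carries all moment tensors of one section to those of another one. -/
theorem exists_unit (hf : IsGauge f)
    (hfr : ∀ F F' : E k →L[ℝ] E n, Iso F → Iso F' →
      ∃ (g : E k ≃L[ℝ] E k) (c : E k), ∀ v, f (F' (g v + c)) ≤ 1 ↔ f (F v) ≤ 1)
    (F F' : E k →L[ℝ] E n) (hF : Iso F) (hF' : Iso F') :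
    ∃ a : (E k →L[ℝ] E k)ˣ, ∀ m, (mom m (sec f F)).compContinuousLinearMap
      (fun _ => (a : E k →L[ℝ] E k)) = mom m (sec f F') := by
  obtain ⟨g, c, hg⟩ := hfr F F' hF hF'
  have h1 := fun m => mom_affine m (gauge_comp hf hF) (gauge_comp hf hF') g c hg
  set G : E k →L[ℝ] E k := (g : E k →L[ℝ] E k) with hG
  set G' : E k →L[ℝ] E k := (g.symm : E k →L[ℝ] E k) with hG'
  have hGG' : G * G' = 1 := by
    ext1 v
    exact g.apply_symm_apply v
  have hG'G : G' * G = 1 := by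
    ext1 v
    exact g.symm_apply_apply v
  have h2 : ContinuousLinearMap.adjoint G * ContinuousLinearMap.adjoint G' = 1 := by
    have := congrArg ContinuousLinearMap.adjoint hG'G
    rw [ContinuousLinearMap.mul_def, ContinuousLinearMap.adjoint_comp] at this
    rw [ContinuousLinearMap.mul_def, this]
    exact ContinuousLinearMap.adjoint_id
  have h3 : ContinuousLinearMap.adjoint G' * ContinuousLinearMap.adjoint G = 1 := by
    have := congrArg ContinuousLinearMap.adjoint hGG'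
    rw [ContinuousLinearMap.mul_def, ContinuousLinearMap.adjoint_comp] at this
    rw [ContinuousLinearMap.mul_def, this]
    exact ContinuousLinearMap.adjoint_id
  exact ⟨⟨ContinuousLinearMap.adjoint G, ContinuousLinearMap.adjoint G', h2, h3⟩,
    fun m => (h1 m).symm⟩

/-- FULL CONTINUOUS LIFT. -/
theorem full_lift (hk : 1 ≤ k) (hf : IsGauge f)
    (hfr : ∀ F F' : E k →L[ℝ] E n, Iso F → Iso F' →
      ∃ (g : E k ≃L[ℝ] E k) (c : E k), ∀ v, f (F' (g v + c)) ≤ 1 ↔ f (F v) ≤ 1)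
    (F₀ : E k →L[ℝ] E n) (hF₀ : Iso F₀)
    {Θ : Type*} [TopologicalSpace Θ] [CompactSpace Θ] (F : ℝ → Θ → E k →L[ℝ] E n)
    (hFc : ContinuousOn (fun z : ℝ × Θ => F z.1 z.2) (Icc (0 : ℝ) 1 ×ˢ univ))
    (hFi : ∀ t ∈ Icc (0 : ℝ) 1, ∀ θ, Iso (F t θ)) (hF0 : ∀ θ, F 0 θ = F₀) :
    ∃ g : ℝ → Θ → E k ≃L[ℝ] E k,
      ContinuousOn (fun z : ℝ × Θ => (g z.1 z.2 : E k →L[ℝ] E k)) (Icc (0 : ℝ) 1 ×ˢ univ) ∧
      ContinuousOn (fun z : ℝ × Θ => cen (sec f (F z.1 z.2))) (Icc (0 : ℝ) 1 ×ˢ univ) ∧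
      (∀ θ, g 0 θ = ContinuousLinearEquiv.refl ℝ (E k)) ∧
      (∀ t ∈ Icc (0 : ℝ) 1, ∀ θ x, f (F t θ (g t θ x + cen (sec f (F t θ)))) ≤ 1 ↔
        f (F₀ (x + cen (sec f F₀))) ≤ 1) ∧
      (∀ θ θ', (∀ t ∈ Icc (0 : ℝ) 1, F t θ = F t θ') → ∀ t ∈ Icc (0 : ℝ) 1, g t θ = g t θ') := by
  classical
  obtain ⟨M₀, hM₀⟩ := exists_finite_stab (fun m => mom m (sec f F₀))
  set M : ℕ := max M₀ 3 with hMdef
  have hM2 : 2 < M := lt_of_lt_of_le (by norm_num) (le_max_right _ _)
  set x : VM k M := fun m => mom (m : ℕ) (sec f F₀) with hx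
  obtain ⟨c, hc, hlow⟩ := mom_two_lower_unif (k := k) hk hf
  obtain ⟨r, hr, B, hprop⟩ := actV_proper hM2 hc x (fun v => hlow F₀ hF₀ v)
  obtain ⟨ε, hε, S, hSc, hSx, hSR⟩ := local_section (actV (k := k) M) (actV_contDiff M)
    (actV_one M) (actV_mul M) x hr hprop
  set q : ℝ → Θ → VM k M := fun t θ m => mom (m : ℕ) (sec f (F t θ)) with hq
  have hmapsTo : MapsTo (fun z : ℝ × Θ => F z.1 z.2) (Icc (0 : ℝ) 1 ×ˢ univ)
      {F : E k →L[ℝ] E n | Iso F} := fun z hz => hFi z.1 hz.1 z.2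
  have hqc : ContinuousOn (fun z : ℝ × Θ => q z.1 z.2) (Icc (0 : ℝ) 1 ×ˢ univ) := by
    refine continuousOn_pi.2 fun m => ?_
    exact (mom_continuousOn hk (m : ℕ) hf).comp hFc hmapsTo
  have horb : ∀ t ∈ Icc (0 : ℝ) 1, ∀ θ, ∃ a : (E k →L[ℝ] E k)ˣ,
      actV M (a : E k →L[ℝ] E k) (q t θ) = x := by
    intro t ht θ
    obtain ⟨a, ha⟩ := exists_unit hf hfr (F t θ) F₀ (hFi t ht θ) hF₀
    exact ⟨a, funext fun m => ha m⟩
  have hMb : ∀ t ∈ Icc (0 : ℝ) 1, ∀ θ, ∀ a : (E k →L[ℝ] E k)ˣ,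
      actV M (a : E k →L[ℝ] E k) (q t θ) = x →
        ‖(a : E k →L[ℝ] E k)‖ ≤ Real.sqrt (‖x ⟨2, hM2⟩‖ / c) := by
    intro t ht θ a ha
    exact actV_bound hM2 hc x (q t θ) (fun v => hlow _ (hFi t ht θ) v) _ ha
  obtain ⟨P, hPc, hP0, hPq, hPs⟩ := lift (actV (k := k) M) (actV_contDiff M).continuous
    (actV_one M) (actV_mul M) x hε S hSc hSx hSR q hqc horb hMb 1 (by
      intro θ
      rw [Units.val_one, actV_one]
      show q 0 θ = x
      funext m
      simp only [hq, hx, hF0 θ])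
  -- all moments
  have hall : ∀ t ∈ Icc (0 : ℝ) 1, ∀ θ, ∀ m, (mom m (sec f (F t θ))).compContinuousLinearMap
      (fun _ => P t θ) = mom m (sec f F₀) := by
    intro t ht θ m
    obtain ⟨a, ha⟩ := exists_unit hf hfr (F t θ) F₀ (hFi t ht θ) hF₀
    have ha' : ∀ m, (mom m (sec f F₀)).compContinuousLinearMap
        (fun _ => ((a⁻¹ : (E k →L[ℝ] E k)ˣ) : E k →L[ℝ] E k)) = mom m (sec f (F t θ)) := by
      intro m
      rw [← ha m]
      have h1 : ((mom m (sec f (F t θ))).compContinuousLinearMap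
          (fun _ => (a : E k →L[ℝ] E k))).compContinuousLinearMap
          (fun _ => ((a⁻¹ : (E k →L[ℝ] E k)ˣ) : E k →L[ℝ] E k)) =
          (mom m (sec f (F t θ))).compContinuousLinearMap
          (fun _ => (a : E k →L[ℝ] E k) * ((a⁻¹ : (E k →L[ℝ] E k)ˣ) : E k →L[ℝ] E k)) := rfl
      rw [h1, Units.mul_inv]
      rfl
    have hstab := hM₀ (((a⁻¹ : (E k →L[ℝ] E k)ˣ) : E k →L[ℝ] E k) * P t θ) (by
      intro m hm
      have h1 : (mom m (sec f F₀)).compContinuousLinearMap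
          (fun _ => ((a⁻¹ : (E k →L[ℝ] E k)ˣ) : E k →L[ℝ] E k) * P t θ) =
          ((mom m (sec f F₀)).compContinuousLinearMap
            (fun _ => ((a⁻¹ : (E k →L[ℝ] E k)ˣ) : E k →L[ℝ] E k))).compContinuousLinearMap
            (fun _ => P t θ) := rfl
      rw [h1, ha' m]
      have h2 := congrFun (hPq t ht θ).2 ⟨m, lt_of_lt_of_le hm (le_max_left _ _)⟩
      rw [actV_apply] at h2
      exact h2) m
    have h1 : (mom m (sec f F₀)).compContinuousLinearMap
        (fun _ => ((a⁻¹ : (E k →L[ℝ] E k)ˣ) : E k →L[ℝ] E k) * P t θ) =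
        ((mom m (sec f F₀)).compContinuousLinearMap
          (fun _ => ((a⁻¹ : (E k →L[ℝ] E k)ˣ) : E k →L[ℝ] E k))).compContinuousLinearMap
          (fun _ => P t θ) := rfl
    rw [h1, ha' m] at hstab
    exact hstab
  -- the equivalences
  have hadjm : ∀ p q : E k →L[ℝ] E k, p * q = 1 →
      ∀ v, ContinuousLinearMap.adjoint q (ContinuousLinearMap.adjoint p v) = v := by
    intro p q hpq v
    have h1 := congrArg ContinuousLinearMap.adjoint hpq
    rw [ContinuousLinearMap.mul_def, ContinuousLinearMap.adjoint_comp] at h1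
    have h2 : ContinuousLinearMap.adjoint (1 : E k →L[ℝ] E k) = 1 :=
      ContinuousLinearMap.adjoint_id
    rw [h2] at h1
    exact DFunLike.congr_fun h1 v
  let g : ℝ → Θ → E k ≃L[ℝ] E k := fun t θ =>
    if h : IsUnit (P t θ) then
      ContinuousLinearEquiv.equivOfInverse
        (ContinuousLinearMap.adjoint ((h.unit⁻¹ : (E k →L[ℝ] E k)ˣ) : E k →L[ℝ] E k))
        (ContinuousLinearMap.adjoint (P t θ))
        (hadjm _ _ (by
          have := h.unit.inv_mul
          exact this))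
        (hadjm _ _ (by
          have := h.unit.mul_inv
          exact this))
    else ContinuousLinearEquiv.refl ℝ (E k)
  have hgP : ∀ t θ (h : IsUnit (P t θ)), (g t θ : E k →L[ℝ] E k) =
      ContinuousLinearMap.adjoint ((h.unit⁻¹ : (E k →L[ℝ] E k)ˣ) : E k →L[ℝ] E k) := by
    intro t θ h
    simp only [g, dif_pos h]
    rfl
  have hgR : ∀ t ∈ Icc (0 : ℝ) 1, ∀ θ, (g t θ : E k →L[ℝ] E k) =
      ContinuousLinearMap.adjoint (Ring.inverse (P t θ)) := by
    intro t ht θ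
    have h := (hPq t ht θ).1
    rw [hgP t θ h]
    congr 1
    have h1 : Ring.inverse (h.unit : E k →L[ℝ] E k) =
        ((h.unit⁻¹ : (E k →L[ℝ] E k)ˣ) : E k →L[ℝ] E k) := Ring.inverse_unit h.unit
    rw [← h1]
    rfl
  refine ⟨g, ?_, ?_, ?_, ?_, ?_⟩
  · have h1 : ContinuousOn (fun z : ℝ × Θ => ContinuousLinearMap.adjoint (Ring.inverse (P z.1 z.2)))
        (Icc (0 : ℝ) 1 ×ˢ univ) := by
      have h2 : ContinuousOn (fun z : ℝ × Θ => Ring.inverse (P z.1 z.2))
          (Icc (0 : ℝ) 1 ×ˢ univ) := by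
        intro z hz
        obtain ⟨⟨p, hp⟩, -⟩ := hPq z.1 hz.1 z.2
        have h3 : ContinuousAt (Ring.inverse : (E k →L[ℝ] E k) → (E k →L[ℝ] E k)) (P z.1 z.2) := by
          rw [← hp]
          exact NormedRing.inverse_continuousAt p
        exact ContinuousAt.comp_continuousWithinAt (f := fun z : ℝ × Θ => P z.1 z.2) h3 (hPc z hz)
      exact (ContinuousLinearMap.adjoint (𝕜 := ℝ) (E := E k) (F := E k)).continuous.comp_continuousOn
        h2
    refine h1.congr fun z hz => ?_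
    exact hgR z.1 hz.1 z.2
  · exact (cen_continuousOn hk hf).comp hFc hmapsTo
  · intro θ
    have h0 : (0 : ℝ) ∈ Icc (0 : ℝ) 1 := ⟨le_rfl, zero_le_one⟩
    have h1 := hgR 0 h0 θ
    rw [hP0 θ, Units.val_one, Ring.inverse_one] at h1
    refine ContinuousLinearEquiv.ext (funext fun v => ?_)
    have h2 := DFunLike.congr_fun h1 v
    have h3 : ContinuousLinearMap.adjoint (1 : E k →L[ℝ] E k) = 1 :=
      ContinuousLinearMap.adjoint_id
    rw [h3] at h2
    exact h2
  · intro t ht θ y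
    obtain ⟨g₁, c₁, hg₁⟩ := hfr (F t θ) F₀ (hFi t ht θ) hF₀
    have hu := (hPq t ht θ).1
    have h1 := body_of_moments (gauge_comp hf (hFi t ht θ)) (gauge_comp hf hF₀) g₁ c₁ hg₁ hu.unit
      (hall t ht θ) (g t θ y)
    have h2 : ContinuousLinearMap.adjoint ((hu.unit : (E k →L[ℝ] E k)ˣ) : E k →L[ℝ] E k)
        (g t θ y) = y := by
      have h3 : g t θ y = ContinuousLinearMap.adjoint
          ((hu.unit⁻¹ : (E k →L[ℝ] E k)ˣ) : E k →L[ℝ] E k) y := DFunLike.congr_fun (hgP t θ hu) y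
      rw [h3]
      exact hadjm _ _ (by
        have := hu.unit.inv_mul
        exact this) y
    rw [h2] at h1
    exact h1.symm
  · intro θ θ' hθ t ht
    have h1 : P t θ = P t θ' := by
      refine hPs θ θ' (fun s hs => ?_) t ht
      funext m
      simp only [hq, hθ s hs]
    refine ContinuousLinearEquiv.ext (funext fun v => ?_)
    have h2 := DFunLike.congr_fun (hgR t ht θ) v
    have h3 := DFunLike.congr_fun (hgR t ht θ') v
    rw [h1] at h2
    exact h2.trans h3.symm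

end

end Pool.Agent.BNH
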