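import Mathlib
import Pool.Agent.BNH.LFull

set_option autoImplicit false

/-! Continuous lifts over compact star-shaped parameter sets. -/

namespace Pool.Agent.BNH

open MeasureTheory Set Metric Filter Topology
open scoped ENNReal
open Pool.Agent.H87Star (IsGauge)
open Pool.Agent.SB

section
variable {n k : ℕ} {f : E n → ℝ}

/-- Centred form of the equivalence of two sections. -/
theorem exists_centred (hf : IsGauge f)
    (hfr : ∀ F F' : E k →L[ℝ] E n, Iso F → Iso F' →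
      ∃ (g : E k ≃L[ℝ] E k) (c : E k), ∀ v, f (F' (g v + c)) ≤ 1 ↔ f (F v) ≤ 1)
    (F F' : E k →L[ℝ] E n) (hF : Iso F) (hF' : Iso F') :
    ∃ g : E k ≃L[ℝ] E k, ∀ x, f (F' (g x + cen (sec f F'))) ≤ 1 ↔ f (F (x + cen (sec f F))) ≤ 1 := by
  obtain ⟨g, c, hg⟩ := hfr F F' hF hF'
  have hcen := cen_affine (gauge_comp hf hF) (gauge_comp hf hF') g c hg
  refine ⟨g, fun x => ?_⟩
  rw [← hg (x + cen (sec f F))]
  have h1 : g x + cen (sec f F') = g (x + cen (sec f F)) + c := by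
    have h2 : cen (sec f F') = g (cen (sec f F)) + c := hcen
    rw [h2, map_add, add_assoc]
  rw [h1]

/-- Continuous lift for a continuous family of frames over a compact star-shaped set. -/
theorem cont_lift_frames (hk : 1 ≤ k) (hf : IsGauge f)
    (hfr : ∀ F F' : E k →L[ℝ] E n, Iso F → Iso F' →
      ∃ (g : E k ≃L[ℝ] E k) (c : E k), ∀ v, f (F' (g v + c)) ≤ 1 ↔ f (F v) ≤ 1)
    (B : E k →L[ℝ] E n) (hB : Iso B)
    {W : Type*} [NormedAddCommGroup W] [NormedSpace ℝ W] {D : Set W} (hD : IsCompact D)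
    (hD0 : ∀ w ∈ D, ∀ t ∈ Icc (0 : ℝ) 1, t • w ∈ D)
    (F : W → E k →L[ℝ] E n) (hFc : ContinuousOn F D) (hFi : ∀ w ∈ D, Iso (F w)) :
    ∃ g : W → E k ≃L[ℝ] E k,
      ContinuousOn (fun w => (g w : E k →L[ℝ] E k)) D ∧
      ContinuousOn (fun w => cen (sec f (F w))) D ∧
      (∀ w ∈ D, ∀ x, f (F w (g w x + cen (sec f (F w)))) ≤ 1 ↔
        f (B (x + cen (sec f B))) ≤ 1) := by
  classical
  rcases D.eq_empty_or_nonempty with hDe | ⟨w₀, hw₀⟩
  · subst hDe
    exact ⟨fun _ => ContinuousLinearEquiv.refl ℝ (E k), continuousOn_empty _,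
      continuousOn_empty _, fun w hw => absurd hw (notMem_empty w)⟩
  have h0D : (0 : W) ∈ D := by
    have := hD0 w₀ hw₀ 0 ⟨le_rfl, zero_le_one⟩
    rwa [zero_smul] at this
  have hcomp : CompactSpace D := isCompact_iff_compactSpace.1 hD
  have hFc' : ContinuousOn (fun z : ℝ × D => F (z.1 • (z.2 : W))) (Icc (0 : ℝ) 1 ×ˢ univ) := by
    have h1 : Continuous (fun z : ℝ × D => z.1 • (z.2 : W)) :=
      continuous_fst.smul (continuous_subtype_val.comp continuous_snd)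
    exact hFc.comp h1.continuousOn (fun z hz => hD0 z.2 z.2.2 z.1 hz.1)
  obtain ⟨g, hgc, hcc, -, hgf, -⟩ := full_lift hk hf hfr (F 0) (hFi 0 h0D)
    (fun t (w : D) => F (t • (w : W))) hFc' (fun t ht w => hFi _ (hD0 w w.2 t ht))
    (fun w => by rw [zero_smul])
  obtain ⟨g₀, hg₀⟩ := exists_centred hf hfr B (F 0) hB (hFi 0 h0D)
  have h1 : (1 : ℝ) ∈ Icc (0 : ℝ) 1 := ⟨zero_le_one, le_rfl⟩
  let G : W → E k ≃L[ℝ] E k := fun w =>
    if hw : w ∈ D then g₀.trans (g 1 ⟨w, hw⟩) else g₀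
  have hG : ∀ w (hw : w ∈ D), G w = g₀.trans (g 1 ⟨w, hw⟩) := by
    intro w hw
    simp only [G, dif_pos hw]
  refine ⟨G, ?_, ?_, ?_⟩
  · rw [continuousOn_iff_continuous_domRestrict]
    have h2 : Continuous (fun w : D => (g 1 w : E k →L[ℝ] E k)) := by
      have h3 : Continuous (fun w : D => ((1 : ℝ), w)) := by fun_prop
      exact hgc.comp_continuous h3 (fun w => ⟨h1, mem_univ _⟩)
    have h4 : Continuous (fun w : D => (g 1 w : E k →L[ℝ] E k).comp (g₀ : E k →L[ℝ] E k)) :=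
      h2.clm_comp continuous_const
    refine h4.congr fun w => ?_
    simp only [Set.domRestrict_apply]
    rw [hG w w.2]
    rfl
  · have h2 : ContinuousOn (fun F : E k →L[ℝ] E n => cen (sec f F)) {F | Iso F} :=
      cen_continuousOn hk hf
    exact h2.comp hFc (fun w hw => hFi w hw)
  · intro w hw x
    have h2 := hgf 1 h1 ⟨w, hw⟩ (g₀ x)
    simp only [one_smul] at h2
    rw [hG w hw, ← hg₀ x, ← h2]
    rfl

end

section Chart

variable {k : ℕ} {f : E (k + 1) → ℝ}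

/-- the reflection exchanging two unit vectors -/
noncomputable def rfl2 {n : ℕ} (u v : E n) : E n →L[ℝ] E n :=
  SB.refl (‖u - v‖⁻¹ • (u - v))

theorem rfl2_norm {n : ℕ} {u v : E n} (h : u ≠ v) (x : E n) : ‖rfl2 u v x‖ = ‖x‖ := by
  unfold rfl2
  have hn : ‖u - v‖ ≠ 0 := norm_ne_zero_iff.2 (sub_ne_zero.2 h)
  have h1 : ‖(‖u - v‖⁻¹ • (u - v))‖ = 1 := by
    rw [norm_smul, norm_inv, norm_norm, inv_mul_cancel₀ hn]
  set m := ‖u - v‖⁻¹ • (u - v) with hm
  have h2 : ‖SB.refl m x‖ ^ 2 = ‖x‖ ^ 2 := by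
    rw [refl_apply, ← real_inner_self_eq_norm_sq, ← real_inner_self_eq_norm_sq]
    simp only [inner_sub_left, inner_sub_right, inner_smul_left, inner_smul_right, conj_trivial]
    rw [real_inner_self_eq_norm_sq m, h1, real_inner_comm m x]
    ring
  have h3 := congrArg Real.sqrt h2
  rwa [Real.sqrt_sq (norm_nonneg _), Real.sqrt_sq (norm_nonneg _)] at h3

theorem rfl2_inner {n : ℕ} {u v : E n} (hu : ‖u‖ = 1) (hv : ‖v‖ = 1) (h : u ≠ v) (x : E n)
    (hx : inner ℝ u x = 0) : inner ℝ v (rfl2 u v x) = 0 := by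
  unfold rfl2
  have hn : ‖u - v‖ ≠ 0 := norm_ne_zero_iff.2 (sub_ne_zero.2 h)
  rw [refl_apply, inner_sub_right, inner_smul_right, inner_smul_left, inner_smul_right,
    conj_trivial, inner_sub_left, hx, inner_sub_right, real_inner_self_eq_norm_sq, hv]
  have h1 : ‖u - v‖ ^ 2 = 2 - 2 * inner ℝ v u := by
    rw [← real_inner_self_eq_norm_sq, inner_sub_left, inner_sub_right, inner_sub_right,
      real_inner_self_eq_norm_sq, real_inner_self_eq_norm_sq, hu, hv, real_inner_comm u v]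
    ring
  have h2 : inner ℝ v u - 1 = - (‖u - v‖ ^ 2 / 2) := by rw [h1]; ring
  rw [show (1 : ℝ) ^ 2 = 1 from one_pow 2, h2]
  field_simp
  ring

theorem continuous_refl' {n : ℕ} : Continuous (fun u : E n => SB.refl u) := by
  unfold SB.refl
  have h1 : Continuous (fun u : E n => (innerSL ℝ u : E n →L[ℝ] ℝ).smulRight u) := by
    have h2 : Continuous (fun u : E n => (innerSL ℝ u : E n →L[ℝ] ℝ)) := (innerSL ℝ).continuous
    exact (ContinuousLinearMap.smulRightL ℝ (E n) (E n)).continuous₂.comp (h2.prodMk continuous_id)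
  exact continuous_const.sub (h1.const_smul (2 : ℝ))

theorem rfl2_continuousOn {n : ℕ} {W : Type*} [TopologicalSpace W] {D : Set W} (u : E n)
    (ν : W → E n) (hν : ContinuousOn ν D) (hne : ∀ w ∈ D, u ≠ ν w) :
    ContinuousOn (fun w => rfl2 u (ν w)) D := by
  unfold rfl2
  refine continuous_refl'.comp_continuousOn ?_
  have h1 : ContinuousOn (fun w => u - ν w) D := continuousOn_const.sub hν
  exact (h1.norm.inv₀ (fun w hw => norm_ne_zero_iff.2 (sub_ne_zero.2 (hne w hw)))).smul h1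

/-- Continuous lift over a compact star-shaped set on which the normal never points in one fixed
direction `u₀`. -/
theorem cont_lift (hk : 1 ≤ k) (hf : IsGauge f)
    (hfr : ∀ F F' : E k →L[ℝ] E (k + 1), Iso F → Iso F' →
      ∃ (g : E k ≃L[ℝ] E k) (c : E k), ∀ v, f (F' (g v + c)) ≤ 1 ↔ f (F v) ≤ 1)
    (B : E k →L[ℝ] E (k + 1)) (hB : Iso B)
    {W : Type*} [NormedAddCommGroup W] [NormedSpace ℝ W] {D : Set W} (hD : IsCompact D)
    (hD0 : ∀ w ∈ D, ∀ t ∈ Icc (0 : ℝ) 1, t • w ∈ D)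
    (u₀ : E (k + 1)) (hu₀ : ‖u₀‖ = 1) (G₀ : E k →L[ℝ] E (k + 1)) (hG₀ : Iso G₀)
    (hG₀u : ∀ x, inner ℝ u₀ (G₀ x) = 0)
    (ν : W → E (k + 1)) (hν : ContinuousOn ν D) (hν0 : ∀ w ∈ D, ν w ≠ 0)
    (hνu : ∀ w ∈ D, ∀ r : ℝ, 0 < r → ν w ≠ r • u₀) :
    ∃ (A : W → E k →L[ℝ] E (k + 1)) (c : W → E (k + 1)),
      ContinuousOn A D ∧ ContinuousOn c D ∧ ∀ w ∈ D,
        (∀ v, inner ℝ (ν w) (A w v) = 0) ∧ inner ℝ (ν w) (c w) = 0 ∧
        Function.Injective (A w) ∧
        (∃ b, A w b + c w = 0) ∧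
        ∀ v, f (A w v + c w) ≤ 1 ↔ f (B (v + cen (sec f B))) ≤ 1 := by
  set μ : W → E (k + 1) := fun w => ‖ν w‖⁻¹ • ν w with hμ
  have hμc : ContinuousOn μ D :=
    (hν.norm.inv₀ (fun w hw => norm_ne_zero_iff.2 (hν0 w hw))).smul hν
  have hμ1 : ∀ w ∈ D, ‖μ w‖ = 1 := by
    intro w hw
    rw [hμ]
    simp only
    rw [norm_smul, norm_inv, norm_norm, inv_mul_cancel₀ (norm_ne_zero_iff.2 (hν0 w hw))]
  have hμν : ∀ w ∈ D, ν w = ‖ν w‖ • μ w := by
    intro w hw
    rw [hμ]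
    simp only
    rw [smul_smul, mul_inv_cancel₀ (norm_ne_zero_iff.2 (hν0 w hw)), one_smul]
  have hμu : ∀ w ∈ D, u₀ ≠ μ w := by
    intro w hw h
    refine hνu w hw ‖ν w‖ (norm_pos_iff.2 (hν0 w hw)) ?_
    rw [h]
    exact hμν w hw
  set F : W → E k →L[ℝ] E (k + 1) := fun w => (rfl2 u₀ (μ w)).comp G₀ with hF
  have hFc : ContinuousOn F D := (rfl2_continuousOn u₀ μ hμc hμu).clm_comp continuousOn_const
  have hFi : ∀ w ∈ D, Iso (F w) := by
    intro w hw v
    rw [hF]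
    show ‖rfl2 u₀ (μ w) (G₀ v)‖ = ‖v‖
    rw [rfl2_norm (hμu w hw), hG₀ v]
  have hFν : ∀ w ∈ D, ∀ v, inner ℝ (ν w) (F w v) = 0 := by
    intro w hw v
    rw [hμν w hw, inner_smul_left]
    have h1 : inner ℝ (μ w) (F w v) = 0 := rfl2_inner hu₀ (hμ1 w hw) (hμu w hw) _ (hG₀u v)
    rw [h1, mul_zero]
  obtain ⟨g, hgc, hcc, hgf⟩ := cont_lift_frames hk hf hfr B hB hD hD0 F hFc hFi
  refine ⟨fun w => (F w).comp (g w : E k →L[ℝ] E k), fun w => F w (cen (sec f (F w))),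
    hFc.clm_comp hgc, hFc.clm_apply hcc, fun w hw => ⟨fun v => ?_, hFν w hw _, ?_, ?_, fun v => ?_⟩⟩
  · exact hFν w hw _
  · have h1 : Function.Injective (F w) := by
      rw [injective_iff_map_eq_zero]
      intro v hv
      have h2 := hFi w hw v
      rw [hv, norm_zero] at h2
      exact norm_eq_zero.1 h2.symm
    exact h1.comp (g w).injective
  · refine ⟨(g w).symm (-cen (sec f (F w))), ?_⟩
    show F w (g w ((g w).symm (-cen (sec f (F w))))) + F w (cen (sec f (F w))) = 0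
    rw [(g w).apply_symm_apply, map_neg, neg_add_cancel]
  · have h1 : F w (g w v) + F w (cen (sec f (F w))) = F w (g w v + cen (sec f (F w))) := by
      rw [map_add]
    show f (F w (g w v) + F w (cen (sec f (F w)))) ≤ 1 ↔ _
    rw [h1]
    exact hgf w hw v

end Chart

end Pool.Agent.BNH
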