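import Mathlib
import Pool.Agent.SB.Defs

set_option autoImplicit false

/-! LFr (MP_95cc6d_gt, lift part, helper38): isometric frames of the hyperplanes `N(v)^⊥` over the cube
`[-1,1]^k`; the boundary of the cube is mapped to the axis `e₀`. -/

open Set Metric
open scoped ContDiff

namespace Pool.Agent.BNH

open Pool.Agent.SB

/-- The embedding `x ↦ (0, x)`. -/
noncomputable def io (k : ℕ) : E k →ₗᵢ[ℝ] E (k + 1) where
  toFun x := WithLp.toLp 2 (Fin.cons (0 : ℝ) (fun i => x i) : Fin (k + 1) → ℝ)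
  map_add' x y := by
    ext i
    refine Fin.cases ?_ (fun j => ?_) i <;> simp
  map_smul' c x := by
    ext i
    refine Fin.cases ?_ (fun j => ?_) i <;> simp
  norm_map' x := by
    simp [EuclideanSpace.norm_eq, Fin.sum_univ_succ]

@[simp] theorem io_zero {k : ℕ} (x : E k) : io k x 0 = 0 := rfl
@[simp] theorem io_succ {k : ℕ} (x : E k) (i : Fin k) : io k x i.succ = x i := rfl

/-- The axis. -/
noncomputable def e0 (k : ℕ) : E (k + 1) := EuclideanSpace.single 0 1

theorem norm_e0 (k : ℕ) : ‖e0 k‖ = 1 := by simp [e0]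

theorem inner_e0 {k : ℕ} (y : E (k + 1)) : inner ℝ (e0 k) y = y 0 := by
  simp [e0, EuclideanSpace.inner_single_left]

theorem inner_e0_io {k : ℕ} (x : E k) : inner ℝ (e0 k) (io k x) = 0 := by
  rw [inner_e0, io_zero]

/-- `b(v) = ∏ (1 - v_i²)`. -/
noncomputable def bb {k : ℕ} (v : Fin k → ℝ) : ℝ := ∏ i, (1 - v i ^ 2)

/-- `|v|²`. -/
noncomputable def sq {k : ℕ} (v : Fin k → ℝ) : ℝ := ∑ i, v i ^ 2

/-- `|v|² + b(v)²`. -/
noncomputable def den {k : ℕ} (v : Fin k → ℝ) : ℝ := sq v + bb v ^ 2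

theorem sq_nonneg' {k : ℕ} (v : Fin k → ℝ) : 0 ≤ sq v := Finset.sum_nonneg fun i _ => _root_.sq_nonneg _

theorem den_pos {k : ℕ} (v : Fin k → ℝ) : 0 < den v := by
  unfold den
  by_cases h : ∃ i, v i ≠ 0
  · obtain ⟨i, hi⟩ := h
    have h1 : 0 < v i ^ 2 := by positivity
    have h2 : v i ^ 2 ≤ sq v := Finset.single_le_sum (f := fun j => v j ^ 2)
      (fun j _ => _root_.sq_nonneg _) (Finset.mem_univ i)
    have h3 := _root_.sq_nonneg (bb v)
    linarith
  · push Not at h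
    have h1 : bb v = 1 := by simp [bb, h]
    have h2 := sq_nonneg' v
    rw [h1]
    linarith

theorem contDiff_bb {k : ℕ} : ContDiff ℝ ∞ (bb (k := k)) := by
  unfold bb
  exact contDiff_prod fun i _ => contDiff_const.sub ((contDiff_apply ℝ ℝ i).pow 2)

theorem contDiff_sq {k : ℕ} : ContDiff ℝ ∞ (sq (k := k)) := by
  unfold sq
  exact ContDiff.sum fun i _ => (contDiff_apply ℝ ℝ i).pow 2

theorem contDiff_den {k : ℕ} : ContDiff ℝ ∞ (den (k := k)) := by
  unfold den
  exact contDiff_sq.add (contDiff_bb.pow 2)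

/-- The non-normalised reflection vector `(-b, v)`. -/
noncomputable def zv {k : ℕ} (v : Fin k → ℝ) : E (k + 1) :=
  WithLp.toLp 2 (Fin.cons (-bb v) v : Fin (k + 1) → ℝ)

@[simp] theorem zv_zero {k : ℕ} (v : Fin k → ℝ) : zv v 0 = -bb v := rfl
@[simp] theorem zv_succ {k : ℕ} (v : Fin k → ℝ) (i : Fin k) : zv v i.succ = v i := rfl

theorem norm_zv_sq {k : ℕ} (v : Fin k → ℝ) : ‖zv v‖ ^ 2 = den v := by
  rw [EuclideanSpace.norm_sq_eq, Fin.sum_univ_succ]
  simp [den, sq, add_comm]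

theorem contDiff_zv {k : ℕ} : ContDiff ℝ ∞ (zv (k := k)) := by
  rw [contDiff_euclidean]
  intro i
  refine Fin.cases ?_ (fun j => ?_) i
  · exact contDiff_bb.neg
  · exact contDiff_apply ℝ ℝ j

/-- The reflection in the hyperplane orthogonal to `zv v`: `y ↦ y - (2/den) ⟪zv, y⟫ zv`. -/
noncomputable def rf {k : ℕ} (v : Fin k → ℝ) : E (k + 1) →L[ℝ] E (k + 1) :=
  ContinuousLinearMap.id ℝ (E (k + 1)) - (2 / den v) • (innerSL ℝ (zv v)).smulRight (zv v)

theorem rf_apply {k : ℕ} (v : Fin k → ℝ) (y : E (k + 1)) :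
    rf v y = y - (2 * inner ℝ (zv v) y / den v) • zv v := by
  simp [rf, smul_smul]
  ring_nf

theorem rf_inner {k : ℕ} (v : Fin k → ℝ) (x y : E (k + 1)) :
    inner ℝ (rf v x) (rf v y) = inner ℝ x y := by
  have hd := (den_pos v).ne'
  rw [rf_apply, rf_apply]
  simp only [inner_sub_left, inner_sub_right, inner_smul_left, inner_smul_right,
    real_inner_self_eq_norm_sq, norm_zv_sq, conj_trivial, real_inner_comm (zv v) x]
  rw [real_inner_comm y (zv v)]
  field_simp
  ring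

theorem norm_rf {k : ℕ} (v : Fin k → ℝ) (y : E (k + 1)) : ‖rf v y‖ = ‖y‖ := by
  have h := rf_inner v y y
  rw [real_inner_self_eq_norm_sq, real_inner_self_eq_norm_sq] at h
  exact (sq_eq_sq₀ (norm_nonneg _) (norm_nonneg _)).1 h

theorem contDiff_rf {k : ℕ} : ContDiff ℝ ∞ (rf (k := k)) := by
  unfold rf
  refine contDiff_const.sub ((contDiff_const.div contDiff_den fun v => (den_pos v).ne').smul ?_)
  have h1 : ContDiff ℝ ∞ (fun v : Fin k → ℝ => (innerSL ℝ (zv v) : E (k + 1) →L[ℝ] ℝ)) :=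
    (innerSL ℝ (E := E (k + 1))).contDiff.comp contDiff_zv
  exact h1.smulRight contDiff_zv

/-- The frame of the hyperplane `N(v)^⊥`. -/
noncomputable def Fr {k : ℕ} (v : Fin k → ℝ) : E k →L[ℝ] E (k + 1) :=
  (rf v).comp (io k).toContinuousLinearMap

theorem Fr_apply {k : ℕ} (v : Fin k → ℝ) (x : E k) : Fr v x = rf v (io k x) := rfl

theorem iso_Fr {k : ℕ} (v : Fin k → ℝ) : Iso (Fr v) := by
  intro x
  rw [Fr_apply, norm_rf, (io k).norm_map]

theorem contDiff_Fr {k : ℕ} : ContDiff ℝ ∞ (Fr (k := k)) := by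
  unfold Fr
  exact contDiff_rf.clm_comp contDiff_const

/-- The normal vector. -/
noncomputable def NN {k : ℕ} (v : Fin k → ℝ) : E (k + 1) := rf v (e0 k)

theorem norm_NN {k : ℕ} (v : Fin k → ℝ) : ‖NN v‖ = 1 := by
  rw [NN, norm_rf, norm_e0]

theorem inner_NN_Fr {k : ℕ} (v : Fin k → ℝ) (x : E k) : inner ℝ (NN v) (Fr v x) = 0 := by
  rw [NN, Fr_apply, rf_inner, inner_e0_io]

theorem contDiff_NN {k : ℕ} : ContDiff ℝ ∞ (NN (k := k)) := by
  unfold NN
  exact contDiff_rf.clm_apply contDiff_const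

/-- The first coordinate of `N`. -/
noncomputable def al {k : ℕ} (v : Fin k → ℝ) : ℝ := (sq v - bb v ^ 2) / den v

/-- The factor of the other coordinates of `N`. -/
noncomputable def be {k : ℕ} (v : Fin k → ℝ) : ℝ := 2 * bb v / den v

theorem NN_zero {k : ℕ} (v : Fin k → ℝ) : NN v 0 = al v := by
  have hd := (den_pos v).ne'
  have h1 : inner ℝ (zv v) (e0 k) = -bb v := by
    rw [real_inner_comm, inner_e0, zv_zero]
  rw [NN, rf_apply, h1]
  simp only [PiLp.sub_apply, PiLp.smul_apply, zv_zero, smul_eq_mul]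
  have h2 : (e0 k) 0 = 1 := by simp [e0]
  rw [h2, al]
  field_simp
  unfold den
  ring

theorem NN_succ {k : ℕ} (v : Fin k → ℝ) (i : Fin k) : NN v i.succ = be v * v i := by
  have h1 : inner ℝ (zv v) (e0 k) = -bb v := by
    rw [real_inner_comm, inner_e0, zv_zero]
  rw [NN, rf_apply, h1]
  simp only [PiLp.sub_apply, PiLp.smul_apply, zv_succ, smul_eq_mul]
  have h2 : (e0 k) i.succ = 0 := by simp [e0]
  rw [h2, be]
  ring

theorem bb_zero {k : ℕ} : bb (0 : Fin k → ℝ) = 1 := by simp [bb]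

theorem al_zero {k : ℕ} : al (0 : Fin k → ℝ) = -1 := by
  simp [al, sq, den, bb_zero]

theorem bb_nonneg {k : ℕ} {v : Fin k → ℝ} (hv : ∀ i, |v i| ≤ 1) : 0 ≤ bb v := by
  refine Finset.prod_nonneg fun i _ => ?_
  have := (sq_le_one_iff_abs_le_one (v i)).2 (hv i)
  linarith

theorem be_nonneg {k : ℕ} {v : Fin k → ℝ} (hv : ∀ i, |v i| ≤ 1) : 0 ≤ be v := by
  have := bb_nonneg hv
  have := den_pos v
  unfold be
  positivity

theorem bb_bdry {k : ℕ} {v : Fin k → ℝ} (hv : ∃ i, |v i| = 1) : bb v = 0 := by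
  obtain ⟨i, hi⟩ := hv
  refine Finset.prod_eq_zero (Finset.mem_univ i) ?_
  have : v i ^ 2 = 1 := by rw [← sq_abs, hi]; norm_num
  rw [this, sub_self]

theorem be_bdry {k : ℕ} {v : Fin k → ℝ} (hv : ∃ i, |v i| = 1) : be v = 0 := by
  rw [be, bb_bdry hv]; simp

theorem al_bdry {k : ℕ} {v : Fin k → ℝ} (hv : ∃ i, |v i| = 1) : al v = 1 := by
  have hd := (den_pos v).ne'
  have h := bb_bdry hv
  rw [al]
  have : sq v - bb v ^ 2 = den v := by rw [den, h]; ring
  rw [this, div_self hd]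

/-- On the boundary of the cube all frames take values in the hyperplane `e₀^⊥`. -/
theorem Fr_bdry {k : ℕ} {v : Fin k → ℝ} (hv : ∃ i, |v i| = 1) (x : E k) : Fr v x 0 = 0 := by
  have h1 : NN v = e0 k := by
    ext i
    refine Fin.cases ?_ (fun j => ?_) i
    · rw [NN_zero, al_bdry hv]; simp [e0]
    · rw [NN_succ, be_bdry hv]; simp [e0]
  have h2 := inner_NN_Fr v x
  rwa [h1, inner_e0] at h2

/-- The range of the frame is the whole hyperplane. -/
theorem mem_range_Fr {k : ℕ} (v : Fin k → ℝ) {y : E (k + 1)} (hy : inner ℝ (NN v) y = 0) :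
    ∃ x, Fr v x = y := by
  have hinv : ∀ z, rf v (rf v z) = z := by
    intro z
    have hd := (den_pos v).ne'
    rw [rf_apply v (rf v z)]
    have h1 : inner ℝ (zv v) (rf v z) = -inner ℝ (zv v) z := by
      rw [rf_apply, inner_sub_right, inner_smul_right, real_inner_self_eq_norm_sq, norm_zv_sq]
      field_simp
      ring
    rw [h1, rf_apply, mul_neg, neg_div, neg_smul]
    abel
  have h0 : (rf v y) 0 = 0 := by
    have h1 := rf_inner v (NN v) y
    rw [hy, NN, hinv, inner_e0] at h1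
    exact h1
  refine ⟨WithLp.toLp 2 (fun i => rf v y i.succ), ?_⟩
  rw [Fr_apply]
  have h2 : io k (WithLp.toLp 2 (fun i => rf v y i.succ)) = rf v y := by
    ext i
    refine Fin.cases ?_ (fun j => ?_) i
    · rw [io_zero, h0]
    · rw [io_succ]
  rw [h2, hinv]

end Pool.Agent.BNH
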