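import Mathlib
import Pool.Agent.BAN.TDefs
import Pool.Agent.BAN.ReflA

set_option autoImplicit false

/-! A smooth, strictly convex body symmetric about `p`: its gauge about `p` is a differentiable strictly
convex norm. -/

namespace Pool.Agent.BNH

open Set Metric Filter Topology
open Pool.Agent.SB (E Iso)
open Pool.Agent.H87Star (IsGauge)
open Pool.Agent.BAN (Sub Str Smo SymAt IsDN)

section
variable {n : ℕ}

/-- Hahn-Banach: a norm has a subgradient everywhere. -/
theorem exists_subgrad {N : E n → ℝ} (hs : ∀ (t : ℝ) v, N (t • v) = |t| * N v)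
    (htri : ∀ v w, N (v + w) ≤ N v + N w) (h0 : ∀ v, 0 ≤ N v) {x : E n} (hx : x ≠ 0) :
    ∃ ξ : E n →L[ℝ] ℝ, (∀ v, ξ v ≤ N v) ∧ ξ x = N x := by
  obtain ⟨g, hg1, hg2⟩ := exists_extension_of_le_sublinear
    (LinearPMap.mkSpanSingleton x (N x) hx) N
    (fun c hc v => by rw [hs, abs_of_pos hc]) htri (by
      rintro ⟨v, hv⟩
      obtain ⟨c, rfl⟩ := Submodule.mem_span_singleton.1 hv
      have h3 : (LinearPMap.mkSpanSingleton x (N x) hx : E n →ₗ.[ℝ] ℝ) ⟨c • x, hv⟩ = c • N x :=
        LinearPMap.mkSpanSingleton'_apply _ _ _ _ _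
      rw [h3]
      show c • N x ≤ N (c • x)
      rw [hs, smul_eq_mul]
      exact mul_le_mul_of_nonneg_right (le_abs_self c) (h0 x))
  refine ⟨LinearMap.toContinuousLinearMap g, hg2, ?_⟩
  have h1 := hg1 ⟨x, Submodule.mem_span_singleton_self x⟩
  have h2 := LinearPMap.mkSpanSingleton_apply ℝ ℝ (σ := RingHom.id ℝ) hx (N x)
  show g x = N x
  exact h1.trans h2

/-- A norm with a unique subgradient at `x` is differentiable at `x`. -/
theorem differentiableAt_of_unique {N : E n → ℝ} (hs : ∀ (t : ℝ) v, N (t • v) = |t| * N v)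
    (htri : ∀ v w, N (v + w) ≤ N v + N w) (h0 : ∀ v, 0 ≤ N v) (hc : Continuous N) {C : ℝ}
    (hC : ∀ v, N v ≤ C * ‖v‖) {x : E n} (hx : x ≠ 0)
    (hU : ∀ ξ η : E n →L[ℝ] ℝ, (∀ v, ξ v ≤ N v) → ξ x = N x → (∀ v, η v ≤ N v) → η x = N x →
      ξ = η) : DifferentiableAt ℝ N x := by
  obtain ⟨ξ₀, h1, h2⟩ := exists_subgrad hs htri h0 hx
  have hneg : ∀ v, N (-v) = N v := fun v => by
    have := hs (-1) v
    simpa using this
  have hbound : ∀ ξ : E n →L[ℝ] ℝ, (∀ v, ξ v ≤ N v) → ‖ξ‖ ≤ max C 0 := by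
    intro ξ hξ
    refine ContinuousLinearMap.opNorm_le_bound _ (le_max_right _ _) fun v => ?_
    have h3 := (hξ v).trans (hC v)
    have h4 := hξ (-v)
    rw [hneg, map_neg] at h4
    have h5 := h4.trans (hC v)
    rw [Real.norm_eq_abs, abs_le]
    have h6 : C * ‖v‖ ≤ max C 0 * ‖v‖ := mul_le_mul_of_nonneg_right (le_max_left _ _)
      (norm_nonneg _)
    constructor <;> linarith
  have key : ∀ ε > 0, ∃ δ > 0, ∀ y, ‖y - x‖ < δ → ∀ ξ : E n →L[ℝ] ℝ, (∀ v, ξ v ≤ N v) →
      ξ y = N y → ‖ξ - ξ₀‖ ≤ ε := by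
    intro ε hε
    by_contra hcon
    push Not at hcon
    have hch : ∀ j : ℕ, ∃ y, ‖y - x‖ < 1 / ((j : ℝ) + 1) ∧ ∃ ξ : E n →L[ℝ] ℝ,
        (∀ v, ξ v ≤ N v) ∧ ξ y = N y ∧ ε < ‖ξ - ξ₀‖ := fun j => hcon _ (by positivity)
    choose y hy ξ hξ1 hξ2 hξ3 using hch
    have hmem : ∀ j, ξ j ∈ closedBall (0 : E n →L[ℝ] ℝ) (max C 0) := fun j => by
      rw [mem_closedBall_zero_iff]
      exact hbound _ (hξ1 j)
    obtain ⟨η, -, φ, hφ, hlim⟩ := (isCompact_closedBall (0 : E n →L[ℝ] ℝ) (max C 0)).tendsto_subseq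
      hmem
    have hylim : Tendsto (fun j => y (φ j)) atTop (𝓝 x) := by
      rw [tendsto_iff_norm_sub_tendsto_zero]
      have t3 : Tendsto (fun j : ℕ => (1 : ℝ) / ((j : ℝ) + 1)) atTop (𝓝 0) :=
        tendsto_one_div_add_atTop_nhds_zero_nat
      exact squeeze_zero (fun _ => norm_nonneg _) (fun j => (hy (φ j)).le) (t3.comp hφ.tendsto_atTop)
    have e1 : ∀ v, η v ≤ N v := by
      intro v
      have h3 : Tendsto (fun j => ξ (φ j) v) atTop (𝓝 (η v)) :=
        ((ContinuousLinearMap.apply ℝ ℝ v).continuous.tendsto η).comp hlim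
      exact le_of_tendsto h3 (Eventually.of_forall fun j => hξ1 _ v)
    have e2 : η x = N x := by
      have h3 : Tendsto (fun j => ξ (φ j) (y (φ j))) atTop (𝓝 (η x)) :=
        (isBoundedBilinearMap_apply (𝕜 := ℝ) (E := E n) (F := ℝ)).continuous.tendsto (η, x)
          |>.comp (hlim.prodMk_nhds hylim)
      have h4 : Tendsto (fun j => N (y (φ j))) atTop (𝓝 (N x)) := (hc.tendsto x).comp hylim
      refine tendsto_nhds_unique h3 ?_
      refine h4.congr fun j => ?_
      exact (hξ2 _).symm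
    have e3 := hU η ξ₀ e1 e2 h1 h2
    have h5 : Tendsto (fun j => ‖ξ (φ j) - ξ₀‖) atTop (𝓝 ‖η - ξ₀‖) :=
      (hlim.sub_const ξ₀).norm
    rw [e3, sub_self, norm_zero] at h5
    have h6 := ge_of_tendsto h5 (Eventually.of_forall fun j => (hξ3 (φ j)).le)
    linarith
  have hD : HasFDerivAt N ξ₀ x := by
    rw [hasFDerivAt_iff_isLittleO_nhds_zero, Asymptotics.isLittleO_iff]
    intro ε hε
    obtain ⟨δ, hδ, hkey⟩ := key ε hε
    have hball : ball (0 : E n) (min δ ‖x‖) ∈ 𝓝 (0 : E n) :=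
      ball_mem_nhds _ (lt_min hδ (norm_pos_iff.2 hx))
    filter_upwards [hball] with v hv
    rw [mem_ball_zero_iff, lt_min_iff] at hv
    have hy0 : x + v ≠ 0 := by
      intro h
      have h3 : v = -x := by rw [← sub_eq_zero, sub_neg_eq_add, add_comm]; exact h
      rw [h3, norm_neg] at hv
      exact lt_irrefl _ hv.2
    obtain ⟨ξ, hξ1, hξ2⟩ := exists_subgrad hs htri h0 hy0
    have h3 := hkey (x + v) (by rw [add_sub_cancel_left]; exact hv.1) ξ hξ1 hξ2
    have h4 : ξ x ≤ N x := hξ1 x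
    have h5 : ξ₀ (x + v) ≤ N (x + v) := h1 _
    rw [map_add] at h5 hξ2
    have h6 : (ξ - ξ₀) v ≤ ε * ‖v‖ := by
      refine (le_abs_self _).trans ?_
      rw [← Real.norm_eq_abs]
      exact ((ξ - ξ₀).le_opNorm v).trans (mul_le_mul_of_nonneg_right h3 (norm_nonneg _))
    have h7 : (ξ - ξ₀) v = ξ v - ξ₀ v := rfl
    rw [Real.norm_eq_abs, abs_le]
    have h8 : 0 ≤ ε * ‖v‖ := by positivity
    constructor
    · linarith
    · linarith
  exact hD.differentiableAt

theorem shift' {h : E n → ℝ} (hh : IsGauge h) (h1 : Sub h) (h2 : Str h)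
    {p : E n} (hp : SymAt h p) :
    ∃ N : E n → ℝ, (∀ v, N v ≤ 1 ↔ h (p + v) ≤ 1) ∧ (∀ v, v ≠ 0 → 0 < N v) ∧
      (∀ (t : ℝ) v, N (t • v) = |t| * N v) ∧ (∀ v w, N (v + w) ≤ N v + N w) ∧ Continuous N ∧
      (∀ v w, v ≠ w → N v = N w → ∀ a : ℝ, 0 < a → a < 1 → N (w + a • (v - w)) < N v) ∧
      (Smo h → IsDN N) ∧ (p ≠ 0 → N (-p) < 1) := by
  set B : Set (E n) := {v | h (p + v) ≤ 1} with hB
  have hcont : Continuous fun v => h (p + v) := hh.cont.comp (continuous_const.add continuous_id)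
  have hp12 : h p ≤ 1 / 2 := by
    have h3 := hp 0 (by rw [hh.zero]; exact zero_le_one)
    rw [sub_zero, hh.hom 2 (by norm_num)] at h3
    linarith
  have hclosed : IsClosed B := isClosed_le hcont continuous_const
  have hopen : IsOpen {v | h (p + v) < 1} := isOpen_lt hcont continuous_const
  have hsub : {v | h (p + v) < 1} ⊆ B := fun v hv => by
    have h3 : h (p + v) < 1 := hv
    exact h3.le
  have hB0 : B ∈ 𝓝 (0 : E n) := by
    refine mem_of_superset (hopen.mem_nhds ?_) hsub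
    show h (p + 0) < 1
    rw [add_zero]
    linarith
  have hconv : Convex ℝ B := by
    intro x hx y hy a b ha hb hab
    show h (p + (a • x + b • y)) ≤ 1
    have h3 : p + (a • x + b • y) = a • (p + x) + b • (p + y) := by
      rw [smul_add, smul_add]
      have h4 : p = a • p + b • p := by rw [← add_smul, hab, one_smul]
      nth_rewrite 1 [h4]
      abel
    rw [h3]
    have h5 := h1 (a • (p + x)) (b • (p + y))
    rw [hh.hom a ha, hh.hom b hb] at h5
    have h6 : h (p + x) ≤ 1 := hx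
    have h7 : h (p + y) ≤ 1 := hy
    nlinarith
  have hsym : ∀ v ∈ B, -v ∈ B := by
    intro v hv
    have h3 := hp (p + v) hv
    have h4 : (2 : ℝ) • p - (p + v) = p + -v := by rw [two_smul]; abel
    rw [h4] at h3
    exact h3
  obtain ⟨c, C, hc, hC, hb⟩ := hh.bounds
  have hbdd : Bornology.IsBounded B := by
    rw [isBounded_iff_forall_norm_le]
    refine ⟨1 / c + ‖p‖, fun v hv => ?_⟩
    have h3 : h (p + v) ≤ 1 := hv
    have h4 := (hb (p + v)).1
    have h5 : ‖p + v‖ ≤ 1 / c := by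
      rw [le_div_iff₀ hc]
      linarith [mul_comm c ‖p + v‖]
    have h6 : v = (p + v) - p := by abel
    calc ‖v‖ = ‖(p + v) - p‖ := by rw [← h6]
      _ ≤ ‖p + v‖ + ‖p‖ := norm_sub_le _ _
      _ ≤ 1 / c + ‖p‖ := by linarith
  have habs : Absorbent ℝ B := absorbent_nhds_zero hB0
  set N : E n → ℝ := gauge B with hN
  have hN0 : ∀ v, 0 ≤ N v := fun v => gauge_nonneg v
  have hNle : ∀ v, N v ≤ 1 ↔ h (p + v) ≤ 1 := by
    intro v
    rw [hN, gauge_le_one_iff_mem_closure hconv hB0, hclosed.closure_eq]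
    rfl
  have hNlt : ∀ v, h (p + v) < 1 → N v < 1 := by
    intro v hv
    rw [hN, gauge_lt_one_iff_mem_interior hconv hB0]
    exact interior_maximal hsub hopen hv
  have hNpos : ∀ v, v ≠ 0 → 0 < N v := by
    intro v hv
    rw [hN, gauge_pos habs (NormedSpace.isVonNBounded_of_isBounded ℝ hbdd)]
    exact hv
  have hNneg : ∀ v, N (-v) = N v := fun v => gauge_neg hsym v
  have hNsmul : ∀ (t : ℝ) v, N (t • v) = |t| * N v := by
    intro t v
    rcases le_total 0 t with ht | ht
    · rw [abs_of_nonneg ht, hN, gauge_smul_of_nonneg ht, smul_eq_mul]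
    · have h3 : t • v = (-t) • (-v) := by rw [smul_neg, neg_smul, neg_neg]
      rw [abs_of_nonpos ht, h3, hN, gauge_smul_of_nonneg (by linarith), smul_eq_mul, ← hN, hNneg]
  have hNtri : ∀ v w, N (v + w) ≤ N v + N w := fun v w => gauge_add_le hconv habs v w
  have hNcont : Continuous N := continuous_gauge hconv hB0
  refine ⟨N, hNle, hNpos, hNsmul, hNtri, hNcont, ?_, ?_, ?_⟩
  · -- strict convexity
    have hmain : ∀ v w, v ≠ w → N v = 1 → N w = 1 → ∀ a : ℝ, 0 < a → a < 1 →
        N (w + a • (v - w)) < 1 := by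
      intro v w hvw hv hw a ha ha1
      set m : E n := (1 / 2 : ℝ) • (v + w) with hm
      have hmlt : N m < 1 := by
        apply hNlt
        have h3 := h2 (p + v) (p + w) ((hNle v).1 hv.le) ((hNle w).1 hw.le) (by
          intro h4
          exact hvw (add_left_cancel h4))
        have h4 : (1 / 2 : ℝ) • (p + v + (p + w)) = p + m := by
          rw [hm]
          module
        rw [h4] at h3
        exact h3
      rcases le_total a (1 / 2) with h | h
      · have h3 : w + a • (v - w) = (1 - 2 * a) • w + (2 * a) • m := by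
          rw [hm]
          module
        rw [h3]
        refine (hNtri _ _).trans_lt ?_
        rw [hNsmul, hNsmul, abs_of_nonneg (by linarith), abs_of_pos (by linarith), hw]
        nlinarith
      · have h3 : w + a • (v - w) = (2 * a - 1) • v + (2 - 2 * a) • m := by
          rw [hm]
          module
        rw [h3]
        refine (hNtri _ _).trans_lt ?_
        rw [hNsmul, hNsmul, abs_of_nonneg (by linarith), abs_of_pos (by linarith), hv]
        nlinarith
    intro v w hvw hvwN a ha ha1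
    have hr : 0 < N v := by
      by_cases hv : v = 0
      · have hw : w ≠ 0 := fun h => hvw (by rw [hv, h])
        rw [hvwN]
        exact hNpos w hw
      · exact hNpos v hv
    have h3 := hmain ((N v)⁻¹ • v) ((N v)⁻¹ • w) (by
      intro h4
      exact hvw (smul_right_injective _ (inv_ne_zero hr.ne') h4)) (by
        rw [hNsmul, abs_of_pos (inv_pos.2 hr), inv_mul_cancel₀ hr.ne']) (by
        rw [hNsmul, abs_of_pos (inv_pos.2 hr), ← hvwN, inv_mul_cancel₀ hr.ne']) a ha ha1
    have h4 : (N v)⁻¹ • w + a • ((N v)⁻¹ • v - (N v)⁻¹ • w) = (N v)⁻¹ • (w + a • (v - w)) := by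
      module
    rw [h4, hNsmul, abs_of_pos (inv_pos.2 hr), inv_mul_lt_iff₀ hr, mul_one] at h3
    exact h3
  · -- differentiability
    intro hS
    refine ⟨hNsmul, hNpos, ?_⟩
    -- an upper bound for `N`
    obtain ⟨C', hC'⟩ : ∃ C' : ℝ, ∀ v, N v ≤ C' * ‖v‖ := by
      have hG : IsGauge N := ⟨hNcont, fun t ht v => by rw [hNsmul, abs_of_nonneg ht], hNpos⟩
      obtain ⟨c', C', -, -, hb'⟩ := hG.bounds
      exact ⟨C', fun v => (hb' v).2⟩
    have hone : ∀ x, N x = 1 → DifferentiableAt ℝ N x := by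
      intro x hx
      have hx0 : x ≠ 0 := by
        rintro rfl
        have h3 := hNsmul 0 0
        rw [abs_zero, zero_mul, smul_zero, hx] at h3
        exact one_ne_zero h3
      have hhx : h (p + x) = 1 := by
        refine le_antisymm ((hNle x).1 hx.le) ?_
        by_contra h3
        push Not at h3
        have h4 := hNlt x h3
        rw [hx] at h4
        exact lt_irrefl _ h4
      refine differentiableAt_of_unique hNsmul hNtri hN0 hNcont hC' hx0 ?_
      intro ξ η hξ1 hξ2 hη1 hη2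
      rw [hx] at hξ2 hη2
      have hsup : ∀ ζ : E n →L[ℝ] ℝ, (∀ v, ζ v ≤ N v) → ζ x = 1 → ∀ v, h v ≤ 1 →
          ζ v ≤ ζ (p + x) := by
        intro ζ h3 h4 v hv
        have h5 : N (v - p) ≤ 1 := by
          rw [hNle, add_sub_cancel]
          exact hv
        have h6 := (h3 (v - p)).trans h5
        rw [map_sub] at h6
        rw [map_add, h4]
        linarith
      have h3 := hS (p + x) hhx ξ η (hsup ξ hξ1 hξ2) (hsup η hη1 hη2)
      refine ContinuousLinearMap.ext fun v => ?_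
      have h4 := h3 v x
      rw [hξ2, hη2, mul_one, one_mul] at h4
      exact h4
    intro v hv
    have hr := hNpos v hv
    have h3 := hone ((N v)⁻¹ • v) (by
      rw [hNsmul, abs_of_pos (inv_pos.2 hr), inv_mul_cancel₀ hr.ne'])
    have h4 : DifferentiableAt ℝ (fun y => N v * N ((N v)⁻¹ • y)) v := by
      refine DifferentiableAt.const_mul ?_ _
      exact DifferentiableAt.comp (g := N) (f := fun y : E n => (N v)⁻¹ • y) v h3
        (by fun_prop)
    have h5 : (fun y => N v * N ((N v)⁻¹ • y)) = N := by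
      funext y
      rw [hNsmul, abs_of_pos (inv_pos.2 hr), mul_inv_cancel_left₀ hr.ne']
    rw [h5] at h4
    exact h4
  · intro _
    apply hNlt
    rw [add_neg_cancel, hh.zero]
    exact zero_lt_one

end

end Pool.Agent.BNH
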