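import Mathlib
import Pool.Agent.BNH.LFr

set_option autoImplicit false

/-! LN1 (MP_95cc6d_gt, helper38): the normal field `NN` over the cube is never opposite to
`(2|v|² - 1, v)`; clamping. -/

open Set Metric
open scoped ContDiff NNReal

namespace Pool.Agent.BNH

open Pool.Agent.SB

theorem bb_lower {k : ℕ} {v : Fin k → ℝ} (hv : ∀ i, |v i| ≤ 1) : 1 - sq v ≤ bb v := by
  unfold sq bb
  have key : ∀ s : Finset (Fin k), 1 - ∑ i ∈ s, v i ^ 2 ≤ ∏ i ∈ s, (1 - v i ^ 2) ∧
      0 ≤ ∏ i ∈ s, (1 - v i ^ 2) ∧ ∏ i ∈ s, (1 - v i ^ 2) ≤ 1 := by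
    intro s
    induction s using Finset.induction_on with
    | empty => simp
    | insert a s ha ih =>
      rw [Finset.sum_insert ha, Finset.prod_insert ha]
      have h1 := (sq_le_one_iff_abs_le_one (v a)).2 (hv a)
      have h2 := _root_.sq_nonneg (v a)
      obtain ⟨h3, h4, h5⟩ := ih
      refine ⟨?_, ?_, ?_⟩ <;> nlinarith
  exact (key Finset.univ).1

theorem bb_upper {k : ℕ} {v : Fin k → ℝ} (hv : ∀ i, |v i| ≤ 1) : bb v * (1 + sq v) ≤ 1 := by
  unfold sq bb
  have key : ∀ s : Finset (Fin k), (∏ i ∈ s, (1 - v i ^ 2)) * (1 + ∑ i ∈ s, v i ^ 2) ≤ 1 ∧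
      0 ≤ ∏ i ∈ s, (1 - v i ^ 2) ∧ 0 ≤ ∑ i ∈ s, v i ^ 2 := by
    intro s
    induction s using Finset.induction_on with
    | empty => simp
    | insert a s ha ih =>
      rw [Finset.sum_insert ha, Finset.prod_insert ha]
      have h1 := (sq_le_one_iff_abs_le_one (v a)).2 (hv a)
      have h2 := _root_.sq_nonneg (v a)
      obtain ⟨h3, h4, h5⟩ := ih
      refine ⟨?_, ?_, ?_⟩
      · set P := ∏ i ∈ s, (1 - v i ^ 2)
        set S := ∑ i ∈ s, v i ^ 2
        set x := v a ^ 2
        have e : (1 - x) * P * (1 + (x + S)) = P * (1 + S) - P * (x * S + x ^ 2) := by ring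
        rw [e]
        have : 0 ≤ P * (x * S + x ^ 2) := by positivity
        linarith
      · exact mul_nonneg (by linarith) h4
      · linarith
  exact (key Finset.univ).1

/-- `⟪(2|v|² - 1, v), NN v⟫ > 0` on the cube. -/
theorem N1_inner_pos {k : ℕ} {v : Fin k → ℝ} (hv : ∀ i, |v i| ≤ 1) :
    0 < (2 * sq v - 1) * al v + be v * sq v := by
  have hd := den_pos v
  have h1 := bb_lower hv
  have h2 := bb_upper hv
  have h3 := bb_nonneg hv
  have h4 := sq_nonneg' v
  set b := bb v with hb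
  set σ := sq v with hσ
  have e : (2 * σ - 1) * al v + be v * σ = ((2 * σ - 1) * (σ - b ^ 2) + 2 * b * σ) / den v := by
    rw [al, be, ← hσ, ← hb]
    ring
  rw [e]
  refine div_pos ?_ hd
  by_cases h5 : σ < 1 / 2
  · by_cases h6 : σ ≤ b ^ 2
    · by_cases h7 : σ = 0
      · rw [h7] at h1 ⊢
        nlinarith
      · have h8 : 0 < σ := lt_of_le_of_ne h4 (Ne.symm h7)
        have h9 : 0 < b := by linarith
        have : 0 ≤ (2 * σ - 1) * (σ - b ^ 2) := by nlinarith
        have : 0 < 2 * b * σ := by positivity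
        linarith
    · push Not at h6
      nlinarith [mul_nonneg h4 h3]
  · push Not at h5
    have h6 : b * (3 / 2) ≤ 1 := by nlinarith
    have h7 : b ^ 2 < 1 / 2 := by nlinarith
    by_cases h8 : b = 0
    · rw [h8] at h1 ⊢
      nlinarith
    · have h9 : 0 < b := lt_of_le_of_ne h3 (Ne.symm h8)
      have : 0 ≤ (2 * σ - 1) * (σ - b ^ 2) := mul_nonneg (by linarith) (by linarith)
      have : 0 < 2 * b * σ := by
        have : 0 < σ := by linarith
        positivity
      linarith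

/-- The comparison vector `(2|v|² - 1, v)`. -/
noncomputable def n1 {k : ℕ} (v : Fin k → ℝ) : E (k + 1) :=
  WithLp.toLp 2 (Fin.cons (2 * (∑ i, v i ^ 2) - 1) v : Fin (k + 1) → ℝ)

@[simp] theorem n1_zero {k : ℕ} (v : Fin k → ℝ) : n1 v 0 = 2 * (∑ i, v i ^ 2) - 1 := rfl
@[simp] theorem n1_succ {k : ℕ} (v : Fin k → ℝ) (i : Fin k) : n1 v i.succ = v i := rfl

theorem inner_NN_n1 {k : ℕ} (v : Fin k → ℝ) :
    inner ℝ (NN v) (n1 v) = (2 * sq v - 1) * al v + be v * sq v := by
  rw [PiLp.inner_apply, Fin.sum_univ_succ]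
  simp only [NN_zero, NN_succ, n1_zero, n1_succ, RCLike.inner_apply, conj_trivial]
  rw [show (∑ i : Fin k, v i * (be v * v i)) = be v * sq v by
    rw [sq, Finset.mul_sum]; exact Finset.sum_congr rfl fun i _ => by ring]
  rfl

/-- The linear homotopy from `(2|v|² - 1, v)` to a nonzero vector orthogonal to `NN v` never vanishes. -/
theorem homotopy_ne_zero {k : ℕ} {v : Fin k → ℝ} (hv : ∀ i, |v i| ≤ 1) {y : E (k + 1)} (hy : y ≠ 0)
    (hyN : inner ℝ (NN v) y = 0) {t : ℝ} (ht : t ∈ Icc (0 : ℝ) 1) :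
    (1 - t) • n1 v + t • y ≠ 0 := by
  intro h
  have h1 := congrArg (fun z => inner ℝ (NN v) z) h
  simp only [inner_add_right, inner_smul_right, hyN, mul_zero, add_zero, inner_zero_right,
    inner_NN_n1] at h1
  have h2 := N1_inner_pos hv
  have h3 : 1 - t = 0 := by
    rcases mul_eq_zero.1 h1 with h4 | h4
    · exact h4
    · exact absurd h4 h2.ne'
  have h4 : t = 1 := by linarith
  rw [h4, sub_self, zero_smul, zero_add, one_smul] at h
  exact hy h

/-- The same for the opposite comparison vector. -/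
theorem homotopy_ne_zero_neg {k : ℕ} {v : Fin k → ℝ} (hv : ∀ i, |v i| ≤ 1) {y : E (k + 1)}
    (hy : y ≠ 0) (hyN : inner ℝ (NN v) y = 0) {t : ℝ} (ht : t ∈ Icc (0 : ℝ) 1) :
    (1 - t) • n1 v + t • (-y) ≠ 0 :=
  homotopy_ne_zero hv (neg_ne_zero.2 hy) (by rw [inner_neg_right, hyN, neg_zero]) ht

/-- The nearest point retraction onto the cube. -/
noncomputable def clamp {k : ℕ} (w : Fin k → ℝ) : Fin k → ℝ := fun i => max (-1) (min 1 (w i))

theorem clamp_mem {k : ℕ} (w : Fin k → ℝ) : clamp w ∈ Icc (-1 : Fin k → ℝ) 1 :=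
  ⟨fun _ => le_max_left _ _, fun _ => max_le (by simp) (min_le_left _ _)⟩

theorem clamp_eq {k : ℕ} {w : Fin k → ℝ} (hw : w ∈ Icc (-1 : Fin k → ℝ) 1) : clamp w = w := by
  funext i
  have h1 : -1 ≤ w i := hw.1 i
  have h2 : w i ≤ 1 := hw.2 i
  simp only [clamp]
  rw [min_eq_right h2, max_eq_right h1]

theorem clamp_lip {k : ℕ} : LipschitzWith 1 (clamp (k := k)) := by
  refine LipschitzWith.of_dist_le_mul fun w w' => ?_
  rw [NNReal.coe_one, one_mul]
  refine (dist_pi_le_iff dist_nonneg).2 fun i => ?_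
  have h1 : dist (w i) (w' i) ≤ dist w w' := dist_le_pi_dist w w' i
  refine le_trans ?_ h1
  simp only [clamp, Real.dist_eq]
  have h2 := abs_max_sub_max_le_max (-1) (min 1 (w i)) (-1) (min 1 (w' i))
  have h3 := abs_min_sub_min_le_max 1 (w i) 1 (w' i)
  rw [sub_self, abs_zero, max_eq_right (abs_nonneg (min 1 (w i) - min 1 (w' i)))] at h2
  rw [sub_self, abs_zero, max_eq_right (abs_nonneg (w i - w' i))] at h3
  exact h2.trans h3

/-- Extension of a Lipschitz map from the cube to the whole space. -/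
theorem lip_clamp {k : ℕ} {G : Type*} [PseudoEMetricSpace G] {C : ℝ≥0} {s : (Fin k → ℝ) → G}
    (hs : LipschitzOnWith C s (Icc (-1) 1)) : LipschitzWith C (fun w => s (clamp w)) := by
  intro w w'
  have h1 := hs (clamp_mem w) (clamp_mem w')
  refine h1.trans ?_
  have h2 := clamp_lip w w'
  rw [ENNReal.coe_one, one_mul] at h2
  gcongr

end Pool.Agent.BNH
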