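import Mathlib
import Pool.Agent.SB.Core
import Pool.Agent.BNH.LFr
import Pool.Agent.BNH.LCont
import Pool.Agent.H82LS.Lip

set_option autoImplicit false

/-! LLip (MP_95cc6d_gt, lift part, helper38): the Lipschitz lift over the cube. -/

open Set Metric MeasureTheory
open scoped ContDiff NNReal
open Pool.Agent.H87Star (IsGauge)

namespace Pool.Agent.BNH

open Pool.Agent.SB

/-- `C¹` maps are Lipschitz on the cube. -/
theorem lip_cube {k : ℕ} {G : Type*} [NormedAddCommGroup G] [NormedSpace ℝ G]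
    {g : (Fin k → ℝ) → G} (hg : ContDiff ℝ 1 g) :
    ∃ C : ℝ≥0, LipschitzOnWith C g (Icc (-1) 1) := by
  have hc : IsCompact (Icc (-1 : Fin k → ℝ) 1) := isCompact_Icc
  have h1 : Continuous (fun x => ‖fderiv ℝ g x‖₊) := (hg.continuous_fderiv (by simp)).nnnorm
  obtain ⟨C, hC⟩ := (hc.image h1).bddAbove
  refine ⟨C, (convex_Icc _ _).lipschitzOnWith_of_nnnorm_fderiv_le
    (fun x _ => (hg.differentiable (by simp)) x) (fun x hx => ?_)⟩
  exact hC ⟨x, hx, rfl⟩

/-- The centroid of a symmetric section is `0`. -/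
theorem cen_sec_even {n k : ℕ} {f : E n → ℝ} (hf : IsGauge f) (hev : ∀ x, f (-x) = f x)
    {F : E k →L[ℝ] E n} (hF : Iso F) : cen (sec f F) = 0 := by
  have h1 := cen_affine (gauge_comp hf hF) (gauge_comp hf hF) (ContinuousLinearEquiv.neg ℝ) 0
    (fun v => by
      show f (F (-v + 0)) ≤ 1 ↔ f (F v) ≤ 1
      rw [add_zero, map_neg, hev])
  have h2 : cen (sec f F) = -cen (sec f F) := by
    have h3 : cen (body fun v => f (F v)) = -cen (body fun v => f (F v)) + 0 := h1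
    rwa [add_zero] at h3
  have h4 : (2 : ℝ) • cen (sec f F) = 0 := by
    rw [two_smul]
    nth_rewrite 1 [h2]
    exact neg_add_cancel _
  exact (smul_eq_zero.1 h4).resolve_left two_ne_zero

/-- Two gauges with the same unit ball are equal. -/
theorem gauge_eq {k : ℕ} {h h' : E k → ℝ} (hh : ∀ (t : ℝ), 0 ≤ t → ∀ v, h (t • v) = t * h v)
    (hh' : ∀ (t : ℝ), 0 ≤ t → ∀ v, h' (t • v) = t * h' v) (h0 : ∀ v, 0 ≤ h v) (h0' : ∀ v, 0 ≤ h' v)
    (hb : ∀ v, h v ≤ 1 ↔ h' v ≤ 1) (v : E k) : h v = h' v := by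
  have key : ∀ {a b : E k → ℝ}, (∀ (t : ℝ), 0 ≤ t → ∀ v, a (t • v) = t * a v) →
      (∀ (t : ℝ), 0 ≤ t → ∀ v, b (t • v) = t * b v) → (∀ v, 0 ≤ a v) →
      (∀ v, a v ≤ 1 → b v ≤ 1) → ∀ v, b v ≤ a v := by
    intro a b ha hb h0 hab v
    refine le_of_forall_pos_le_add fun ε hε => ?_
    have h1 : 0 < a v + ε := by have := h0 v; linarith
    have h2 := hab ((a v + ε)⁻¹ • v) (by
      rw [ha _ (inv_nonneg.2 h1.le), inv_mul_le_iff₀ h1]; linarith)
    rw [hb _ (inv_nonneg.2 h1.le), inv_mul_le_iff₀ h1, mul_one] at h2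
    exact h2
  exact le_antisymm (key hh' hh h0' (fun v => (hb v).2) v) (key hh hh' h0 (fun v => (hb v).1) v)

/-- The orthogonal projection onto the hyperplane `N(v)^⊥`. -/
noncomputable def prj {k : ℕ} (v : Fin k → ℝ) : E (k + 1) →L[ℝ] E (k + 1) :=
  ContinuousLinearMap.id ℝ _ - (innerSL ℝ (NN v)).smulRight (NN v)

theorem prj_apply {k : ℕ} (v : Fin k → ℝ) (y : E (k + 1)) :
    prj v y = y - inner ℝ (NN v) y • NN v := by
  simp [prj]

theorem inner_NN_prj {k : ℕ} (v : Fin k → ℝ) (y : E (k + 1)) : inner ℝ (NN v) (prj v y) = 0 := by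
  rw [prj_apply, inner_sub_right, inner_smul_right, real_inner_self_eq_norm_sq, norm_NN]
  ring

theorem contDiff_prj {k : ℕ} : ContDiff ℝ ∞ (prj (k := k)) := by
  unfold prj
  have h1 : ContDiff ℝ ∞ (fun v : Fin k → ℝ => (innerSL ℝ (NN v) : E (k + 1) →L[ℝ] ℝ)) :=
    (innerSL ℝ (E := E (k + 1))).contDiff.comp contDiff_NN
  exact contDiff_const.sub (h1.smulRight contDiff_NN)

/-- THE LIPSCHITZ LIFT over the cube, for even Lipschitz gauges all of whose hyperplane sections are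
linearly equivalent. -/
theorem lip_lift_cube {k : ℕ} (hk : 1 ≤ k) {f : E (k + 1) → ℝ} (hf : IsGauge f)
    {LF : ℝ} (hL : ∀ y y', |f y - f y'| ≤ LF * ‖y - y'‖) (hev : ∀ x, f (-x) = f x)
    (hfr : ∀ F F' : E k →L[ℝ] E (k + 1), Iso F → Iso F' →
      ∃ g : E k ≃L[ℝ] E k, ∀ v, f (F' (g v)) = f (F v)) :
    ∃ (s : (Fin k → ℝ) → E k →L[ℝ] E (k + 1)) (C : ℝ≥0), LipschitzOnWith C s (Icc (-1) 1) ∧
      ∀ v ∈ Icc (-1 : Fin k → ℝ) 1,
        (∀ x, inner ℝ (NN v) (s v x) = 0) ∧ ∀ x, f (s v x) = f (Fr 0 x) := by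
  classical
  -- the continuous lift
  obtain ⟨g, hgc, -, hgf⟩ := cont_lift_frames hk hf
    (fun F F' hF hF' => by
      obtain ⟨g, hg⟩ := hfr F F' hF hF'
      exact ⟨g, 0, fun v => by rw [add_zero, hg]⟩) (Fr 0) (iso_Fr 0)
    (D := Icc (-1 : Fin k → ℝ) 1) isCompact_Icc
    (fun w hw t ht => by
      constructor
      · intro i
        have h1 := hw.1 i
        have h2 := hw.2 i
        simp only [Pi.neg_apply, Pi.one_apply, Pi.smul_apply, smul_eq_mul] at h1 h2 ⊢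
        nlinarith [ht.1, ht.2]
      · intro i
        have h1 := hw.1 i
        have h2 := hw.2 i
        simp only [Pi.neg_apply, Pi.one_apply, Pi.smul_apply, smul_eq_mul] at h1 h2 ⊢
        nlinarith [ht.1, ht.2])
    Fr contDiff_Fr.continuous.continuousOn (fun w _ => iso_Fr w)
  -- the lift as a function on the whole space
  set s₀ : (Fin k → ℝ) → E k →L[ℝ] E (k + 1) := fun v => (Fr v).comp (g v : E k →L[ℝ] E k) with hs₀
  have hs₀c : ContinuousOn s₀ (Icc (-1) 1) :=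
    contDiff_Fr.continuous.continuousOn.clm_comp hgc
  have hs₀f : ∀ v ∈ Icc (-1 : Fin k → ℝ) 1, ∀ x, f (s₀ v x) = f (Fr 0 x) := by
    intro v hv x
    refine gauge_eq (h := fun x => f (s₀ v x)) (h' := fun x => f (Fr 0 x)) ?_ ?_ ?_ ?_ ?_ x
    · intro t ht x
      rw [map_smul, hf.hom t ht]
    · intro t ht x
      rw [map_smul, hf.hom t ht]
    · intro x; exact hf.nonneg _
    · intro x; exact hf.nonneg _
    · intro x
      have h1 := hgf v hv x
      rw [cen_sec_even hf hev (iso_Fr _), cen_sec_even hf hev (iso_Fr _), add_zero, add_zero] at h1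
      exact h1
  have hprr : ∀ v ∈ Icc (-1 : Fin k → ℝ) 1, ∀ y, inner ℝ (NN v) y = 0 → ∃ x, y = s₀ v x := by
    intro v hv y hy
    obtain ⟨x, hx⟩ := mem_range_Fr v hy
    refine ⟨(g v).symm x, ?_⟩
    show y = Fr v (g v ((g v).symm x))
    rw [(g v).apply_symm_apply, hx]
  have hperp : ∀ v ∈ Icc (-1 : Fin k → ℝ) 1, ∀ x, inner ℝ (NN v) (s₀ v x) = 0 := by
    intro v hv x
    exact inner_NN_Fr v (g v x)
  obtain ⟨KP, hKP⟩ := lip_cube (k := k) (contDiff_prj.of_le (by exact_mod_cast le_top))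
  obtain ⟨s, K, hsL, hsf, hsr⟩ := H82LS.lip_lift (W := Fin k → ℝ) isCompact_Icc
    (f := fun x => f (Fr 0 x)) (gauge_comp hf (iso_Fr 0)) hL hs₀c hs₀f (P := prj) hKP
    (fun v hv y => hprr v hv _ (inner_NN_prj v y))
    (fun v hv x => by rw [prj_apply, hperp v hv x, zero_smul, sub_zero])
  refine ⟨s, K, hsL, fun v hv => ⟨fun x => ?_, hsf v hv⟩⟩
  obtain ⟨x', hx'⟩ := hsr v hv x
  rw [hx']
  exact hperp v hv x'

end Pool.Agent.BNH
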