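import Mathlib
import Pool.Agent.BAN.TDefs
import Pool.Agent.BNH.LLip
import Pool.Agent.H73.ParAlg

set_option autoImplicit false

/-! The case of an origin-symmetric body: all equivalences are linear. -/

namespace Pool.Agent.BNH

open Set Metric
open scoped NNReal
open Pool.Agent.H87Star (IsGauge)
open Pool.Agent.SB
open Pool.Agent.BAN (Sub)

/-- The statement of the polynomial identity theorem used in the symmetric case. -/
def VolCore (k : ℕ) : Prop :=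
  ∀ (F : E (k + 1) → ℝ) (h : E k → ℝ) (s : (Fin k → ℝ) → E k →L[ℝ] E (k + 1)) (C : ℝ≥0),
    IsGauge F → IsGauge h → LipschitzOnWith C s (Icc (-1) 1) →
    (∀ v ∈ Icc (-1 : Fin k → ℝ) 1, ∀ x, inner ℝ (NN v) (s v x) = 0) →
    (∀ v ∈ Icc (-1 : Fin k → ℝ) 1, ∀ x, F (s v x) = h x) →
    ∃ b : E k →ₗ[ℝ] E k →ₗ[ℝ] ℝ, (∀ v w, b v w = b w v) ∧ ∀ v, h v ^ 2 = b v v

theorem gauge_le_of_body {k : ℕ} {h h' : E k → ℝ} (hh : IsGauge h) (hh' : IsGauge h')
    (hb : ∀ v, h v ≤ 1 ↔ h' v ≤ 1) (v : E k) : h v = h' v :=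
  gauge_eq hh.hom hh'.hom hh.nonneg hh'.nonneg hb v

/-- In the symmetric case the affine equivalences are linear. -/
theorem lin_of_even {n k : ℕ} {f : E n → ℝ} (hf : IsGauge f) (hev : ∀ y, f (-y) = f y)
    (hfr : ∀ F F' : E k →L[ℝ] E n, Iso F → Iso F' →
      ∃ (g : E k ≃L[ℝ] E k) (c : E k), ∀ v, f (F' (g v + c)) ≤ 1 ↔ f (F v) ≤ 1)
    (F F' : E k →L[ℝ] E n) (hF : Iso F) (hF' : Iso F') :
    ∃ g : E k ≃L[ℝ] E k, ∀ v, f (F' (g v)) = f (F v) := by
  obtain ⟨g, c, hg⟩ := hfr F F' hF hF'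
  have h1 := cen_affine (gauge_comp hf hF) (gauge_comp hf hF') g c hg
  have h2 : cen (body fun v => f (F v)) = 0 := cen_sec_even hf hev hF
  have h3 : cen (body fun v => f (F' v)) = 0 := cen_sec_even hf hev hF'
  rw [h2, h3, map_zero, zero_add] at h1
  have hG' : IsGauge (fun v => f (F' (g v))) :=
    { cont := hf.cont.comp (F'.continuous.comp g.continuous)
      hom := by
        intro t ht v
        show f (F' (g (t • v))) = t * f (F' (g v))
        rw [map_smul, map_smul, hf.hom t ht]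
      pos := by
        intro v hv
        refine (gauge_comp hf hF').pos (g v) ?_
        simpa using hv }
  refine ⟨g, fun v => ?_⟩
  refine gauge_le_of_body hG' (gauge_comp hf hF) (fun v => ?_) v
  have h4 := hg v
  rw [← h1, add_zero] at h4
  exact h4

theorem case1_of {k : ℕ} (hk : 1 ≤ k) (hvol : VolCore k) {f : E (k + 1) → ℝ} (hf : IsGauge f)
    (hfr : ∀ F F' : E k →L[ℝ] E (k + 1), Iso F → Iso F' →
      ∃ (g : E k ≃L[ℝ] E k) (c : E k), ∀ v, f (F' (g v + c)) ≤ 1 ↔ f (F v) ≤ 1)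
    (hsub : Sub f) (hev : ∀ y, f (-y) = f y) (F : E k →L[ℝ] E (k + 1)) (hF : Iso F) :
    ∃ (g : E k ≃ₗ[ℝ] E k) (z : E k), ∀ x, f (F x) ≤ 1 ↔ ‖g x - z‖ ≤ 1 := by
  obtain ⟨c, C, hc, hC, hb⟩ := hf.bounds
  have hlip : ∀ y y', |f y - f y'| ≤ C * ‖y - y'‖ := by
    intro y y'
    have h1 := hsub (y - y') y'
    have h2 := hsub (y' - y) y
    rw [sub_add_cancel] at h1 h2
    have h3 := (hb (y - y')).2
    have h4 := (hb (y' - y)).2
    rw [norm_sub_rev] at h4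
    rw [abs_le]
    constructor <;> linarith
  have hlin := lin_of_even hf hev hfr
  obtain ⟨s, L, hs, h12⟩ := lip_lift_cube hk hf hlip hev hlin
  obtain ⟨b, hb1, hb2⟩ := hvol f (fun x => f (Fr 0 x)) s L hf (gauge_comp hf (iso_Fr 0)) hs
    (fun v hv => (h12 v hv).1) (fun v hv => (h12 v hv).2)
  obtain ⟨A, hA⟩ := Pool.Agent.H73.equiv_of_form (gauge_comp hf (iso_Fr 0)) ⟨b, hb1, hb2⟩
  obtain ⟨g, hg⟩ := hlin F (Fr 0) hF (iso_Fr 0)
  refine ⟨g.toLinearEquiv.trans A, 0, fun x => ?_⟩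
  rw [sub_zero, ← hg x, hA (g x)]
  rfl

end Pool.Agent.BNH
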