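import Mathlib
import Pool.Agent.BNH.Case1Of
import Pool.Agent.BAN.VolC

set_option autoImplicit false

/-! The case of an origin-symmetric body. -/

namespace Pool.Agent.BNH

open Pool.Agent.H87Star (IsGauge)
open Pool.Agent.SB
open Pool.Agent.BAN (Sub)

/-- the polynomial identity -/
theorem volCore {k : ℕ} (hk : Odd k) : VolCore k :=
  fun _ _ s C hF hh hs h2 h1 => Pool.Agent.BAN.vol_core hk hF hh s C hs h1 h2

theorem case1 {k : ℕ} (hk : 3 ≤ k) (hodd : Odd k) {f : E (k + 1) → ℝ} (hf : IsGauge f)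
    (hfr : ∀ F F' : E k →L[ℝ] E (k + 1), Iso F → Iso F' →
      ∃ (g : E k ≃L[ℝ] E k) (c : E k), ∀ v, f (F' (g v + c)) ≤ 1 ↔ f (F v) ≤ 1)
    (hsub : Sub f) (hev : ∀ y, f (-y) = f y) (F : E k →L[ℝ] E (k + 1)) (hF : Iso F) :
    ∃ (g : E k ≃ₗ[ℝ] E k) (z : E k), ∀ x, f (F x) ≤ 1 ↔ ‖g x - z‖ ≤ 1 :=
  case1_of (by omega) (volCore hodd) hf hfr hsub hev F hF

end Pool.Agent.BNH
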