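import Mathlib
import Pool.Agent.SB.Final

set_option autoImplicit false

/-! Reduction of the full statement to hyperplane sections of odd dimension. -/

namespace Pool.Agent.BNH

open Set Metric
open Pool.Agent.H87Star (IsGauge gaugeOf isGauge_gaugeOf gaugeOf_le_one)
open Pool.Agent.SB

/-- An isometric frame factors through an isometric frame of one more dimension. -/
theorem exists_factor {n k : ℕ} (hn : k + 1 ≤ n) (F : E k →L[ℝ] E n) (hF : Iso F) :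
    ∃ (G : E (k + 1) →L[ℝ] E n) (ι : E k →L[ℝ] E (k + 1)), Iso G ∧ Iso ι ∧ ∀ x, G (ι x) = F x := by
  classical
  have h1 : Module.finrank ℝ (LinearMap.range (F : E k →ₗ[ℝ] E n)) ≤ k + 1 := by
    have h2 := LinearMap.finrank_range_le (F : E k →ₗ[ℝ] E n)
    rw [finrank_euclideanSpace_fin] at h2
    omega
  have h4 : k + 1 ≤ Module.finrank ℝ (E n) := by rw [finrank_euclideanSpace_fin]; exact hn
  obtain ⟨S, hWS, hS⟩ := Pool.Agent.H87Star.exists_sub_ge _ (k + 1) h1 h4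
  let b := (stdOrthonormalBasis ℝ S).reindex (finCongr hS)
  have hmem : ∀ x, F x ∈ S := fun x => hWS ⟨x, rfl⟩
  let F' : E k →L[ℝ] S := F.codRestrict S hmem
  refine ⟨(S.subtypeL).comp (b.repr.symm.toContinuousLinearEquiv : E (k + 1) →L[ℝ] S),
    (b.repr.toContinuousLinearEquiv : S →L[ℝ] E (k + 1)).comp F', ?_, ?_, ?_⟩
  · intro u
    show ‖((b.repr.symm u : S) : E n)‖ = ‖u‖
    rw [Submodule.norm_coe, LinearIsometryEquiv.norm_map]
  · intro u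
    show ‖b.repr (F' u)‖ = ‖u‖
    rw [LinearIsometryEquiv.norm_map, ← Submodule.norm_coe]
    exact hF u
  · intro x
    show ((b.repr.symm (b.repr (F' x)) : S) : E n) = F x
    rw [LinearIsometryEquiv.symm_apply_apply]
    rfl

/-- The core statement: hyperplane sections of odd dimension `k ≥ 3`. -/
def CoreOdd : Prop :=
  ∀ k : ℕ, 3 ≤ k → Odd k → ∀ f : E (k + 1) → ℝ, IsGauge f →
    (∀ F F' : E k →L[ℝ] E (k + 1), Iso F → Iso F' →
      ∃ (g : E k ≃L[ℝ] E k) (c : E k), ∀ v, f (F' (g v + c)) ≤ 1 ↔ f (F v) ≤ 1) →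
    ∀ F₀ : E k →L[ℝ] E (k + 1), Iso F₀ →
      ∃ (g : E k ≃ₗ[ℝ] E k) (z : E k), ∀ x, f (F₀ x) ≤ 1 ↔ ‖g x - z‖ ≤ 1

theorem frozen_of_core (hcore : CoreOdd) (n k : ℕ) (hk : 2 ≤ k) (hn : k + 1 ≤ n)
    (K : Set (E n))
    (hK : ∃ ρ : E n → ℝ, Continuous ρ ∧ (∀ x, 0 < ρ x) ∧ K = {x | ‖x‖ ≤ ρ (‖x‖⁻¹ • x)})
    (hsec : ∀ S T : Submodule ℝ (E n), Module.finrank ℝ S = k → Module.finrank ℝ T = k →
      ∃ φ : S ≃ᵃ[ℝ] T, φ '' {x : S | (x : E n) ∈ K} = {y : T | (y : E n) ∈ K}) :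
    ∃ A : E n ≃ᵃ[ℝ] E n, K = A '' Metric.closedBall 0 1 := by
  rcases Nat.even_or_odd k with hev | hodd
  · exact SB.ellipsoid hk hn (Or.inl hev) K hK hsec
  have hk3 : 3 ≤ k := by
    rcases hodd with ⟨m, hm⟩
    omega
  obtain ⟨ρ, hρ, hpos, hKρ⟩ := hK
  have hf : IsGauge (gaugeOf ρ) := isGauge_gaugeOf hρ hpos
  have hmemK : ∀ x, x ∈ K ↔ gaugeOf ρ x ≤ 1 := by
    intro x; rw [gaugeOf_le_one hpos, hKρ]; rfl
  have hKe : K = {x | gaugeOf ρ x ≤ 1} := by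
    ext x; rw [hmemK]; rfl
  have hfr : ∀ F F' : E k →L[ℝ] E n, Iso F → Iso F' →
      ∃ (g : E k ≃L[ℝ] E k) (c : E k), ∀ v, gaugeOf ρ (F' (g v + c)) ≤ 1 ↔ gaugeOf ρ (F v) ≤ 1 := by
    intro F F' hF hF'
    refine frames_of_sections (fun S T hS hT => ?_) F F' hF hF'
    obtain ⟨φ, hφ⟩ := hsec S T hS hT
    refine ⟨φ, ?_⟩
    simp only [hmemK] at hφ
    exact hφ
  rw [hKe]
  refine ellipsoid_of_sections hk (by omega) hf (fun F hF => ?_)
  have hh := gauge_comp hf hF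
  obtain ⟨G, ι, hG, hι, hGι⟩ := exists_factor hn F hF
  obtain ⟨g, z, hgz⟩ := hcore k hk3 hodd (fun v => gaugeOf ρ (G v)) (gauge_comp hf hG) (by
    intro F₁ F₂ hF₁ hF₂
    have h1 : Iso (G.comp F₁) := fun v => by
      show ‖G (F₁ v)‖ = ‖v‖
      rw [hG, hF₁]
    have h2 : Iso (G.comp F₂) := fun v => by
      show ‖G (F₂ v)‖ = ‖v‖
      rw [hG, hF₂]
    exact hfr (G.comp F₁) (G.comp F₂) h1 h2) ι hι
  refine quad_of_affine_ball hh g z (fun x => ?_)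
  have h3 := hgz x
  simp only [hGι] at h3
  exact h3

end Pool.Agent.BNH
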